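import Pool.Agent.Helper54.PW.Main2
import Pool.Agent.Helper73.PW.L1
import Pool.Agent.Helper92.PW.CoverL2

set_option autoImplicit false
set_option linter.unusedSectionVars false
open scoped Pointwise

namespace Pool.Agent.Helper54.PW

theorem realizable_congr {k : Type} [Field k] {G G' : Type} [Group G] [Group G'] (e : G ≃* G')
    {r : ℕ} (P : Fin r → Subgroup G) (x : Fin r → ValuationSubring (RatFunc k))
    (h : Realizable k G' (fun i => (P i).map e.toMonoidHom) x) : Realizable k G P x := by
  obtain ⟨L, _, _, hfd, hgal, φ, h1, h2⟩ := h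
  refine ⟨L, _, _, hfd, hgal, e.trans φ, h1, fun i => ?_⟩
  obtain ⟨A, hA, hA2⟩ := h2 i
  refine ⟨A, hA, ?_⟩
  rw [hA2, Subgroup.map_map]
  rfl

/-- one step: a minimal normal elementary abelian `p`-subgroup -/
theorem step_realizable {p : ℕ} [Fact p.Prime] {k : Type} [Field k] [IsAlgClosed k] [CharP k p]
    {G : Type} [Group G] [Finite G] (V : Subgroup G) [V.Normal]
    (hVc : ∀ a b : V, a * b = b * a) (hVp : ∀ a : V, a ^ p = 1) (hVne : V ≠ ⊥)
    (hVmin : ∀ W : Subgroup G, W.Normal → W ≤ V → W = ⊥ ∨ W = V)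
    (P : Subgroup G) (hP : IsPGroup p P) (hgen : Subgroup.normalClosure (P : Set G) = ⊤)
    (x : ValuationSubring (RatFunc k)) (hx : x ≠ ⊤)
    (hxk : ∀ c : k, algebraMap k (RatFunc k) c ∈ x)
    (h : Realizable k (G ⧸ V) (fun _ : Fin 1 => P.map (QuotientGroup.mk' V)) (fun _ => x)) :
    Realizable k G (fun _ : Fin 1 => P) (fun _ => x) := by
  obtain ⟨L, _, _, hfd, hgal, φ, hunr, A, hA, hAk, hAX, hst⟩ :=
    exists_cover_of_realizable (P.map (QuotientGroup.mk' V)) x hx hxk h
  let _ : Algebra k L := ((algebraMap (RatFunc k) L).comp (algebraMap k (RatFunc k))).toAlgebra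
  have : IsScalarTower k (RatFunc k) L := IsScalarTower.of_algebraMap_eq fun _ => rfl
  have : CharP L p := charP_of_injective_algebraMap (algebraMap k L).injective p
  apply realizable_of_realAct P _ x hx hxk
  let act : G →* (L ≃ₐ[RatFunc k] L) := φ.toMonoidHom.comp (QuotientGroup.mk' V)
  refine main_step (p := p) (L := L) V hVc hVp hVne hVmin P hP hgen act ?_ ?_ hunr A
    ⟨hA, hAk⟩ hAX ?_
  · intro σ
    obtain ⟨g, hg⟩ := QuotientGroup.mk'_surjective V (φ.symm σ)
    exact ⟨g, by
      show φ (QuotientGroup.mk' V g) = σ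
      rw [hg, MulEquiv.apply_symm_apply]⟩
  · intro g
    show φ (QuotientGroup.mk' V g) = 1 ↔ g ∈ V
    rw [map_eq_one_iff φ φ.injective]
    exact QuotientGroup.eq_one_iff g
  · intro σ
    rw [hst]
    constructor
    · rintro ⟨g, ⟨g', hg', rfl⟩, rfl⟩
      exact ⟨g', hg', rfl⟩
    · rintro ⟨g, hg, rfl⟩
      exact ⟨_, ⟨g, hg, rfl⟩, rfl⟩

/-- a minimal normal subgroup of `G` contained in a normal `p`-subgroup is elementary abelian -/
theorem exists_minimal {p : ℕ} [Fact p.Prime] {G : Type} [Group G] [Finite G] (N : Subgroup G)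
    [hN : N.Normal] (hNp : IsPGroup p N) (hNe : N ≠ ⊥) :
    ∃ V : Subgroup G, V.Normal ∧ V ≤ N ∧ V ≠ ⊥ ∧
      (∀ W : Subgroup G, W.Normal → W ≤ V → W = ⊥ ∨ W = V) ∧
      (∀ a b : V, a * b = b * a) ∧ ∀ a : V, a ^ p = 1 := by
  classical
  -- choose V of minimal cardinality
  let S : Set (Subgroup G) := {V | V.Normal ∧ V ≤ N ∧ V ≠ ⊥}
  have hS : S.Nonempty := ⟨N, hN, le_rfl, hNe⟩
  obtain ⟨V, hV⟩ := (Set.toFinite S).exists_minimal hS
  obtain ⟨⟨hVn, hVN, hVe⟩, hmin⟩ := hV
  have hmin' : ∀ W : Subgroup G, W.Normal → W ≤ V → W = ⊥ ∨ W = V := by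
    intro W hWn hWV
    by_cases hW : W = ⊥
    · exact Or.inl hW
    · right
      exact le_antisymm hWV (hmin ⟨hWn, hWV.trans hVN, hW⟩ hWV)
  have hVp : IsPGroup p V := hNp.to_le hVN
  have : Nontrivial V := (Subgroup.nontrivial_iff_ne_bot V).2 hVe
  -- the centre of V
  have hZ : (Subgroup.center V).map V.subtype = V := by
    have hn : ((Subgroup.center V).map V.subtype).Normal := inferInstance
    rcases hmin' _ hn (Subgroup.map_subtype_le _) with h | h
    · exfalso
      rw [Subgroup.map_eq_bot_iff_of_injective _ V.subtype_injective] at h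
      exact (ne_of_gt hVp.bot_lt_center) h
    · exact h
  have hcomm : ∀ a b : V, a * b = b * a := by
    intro a b
    have ha : (a : G) ∈ (Subgroup.center V).map V.subtype := by rw [hZ]; exact a.2
    obtain ⟨c, hc, hca⟩ := ha
    have : c = a := Subtype.ext hca
    rw [← this]
    exact ((Subgroup.mem_center_iff.1 hc) b).symm
  refine ⟨V, hVn, hVN, hVe, hmin', hcomm, ?_⟩
  -- elements of order dividing p
  let T : Subgroup V :=
    { carrier := {a | a ^ p = 1}
      mul_mem' := fun {a b} ha hb => by
        show (a * b) ^ p = 1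
        have hc : Commute a b := hcomm a b
        rw [hc.mul_pow, ha, hb, one_mul]
      one_mem' := one_pow p
      inv_mem' := fun {a} ha => by
        show a⁻¹ ^ p = 1
        rw [inv_pow, ha, inv_one] }
  have hTchar : T.Characteristic := by
    rw [Subgroup.characteristic_iff_map_le]
    rintro σ _ ⟨a, ha, rfl⟩
    show (σ a) ^ p = 1
    rw [← map_pow]
    have : a ^ p = 1 := ha
    rw [this, map_one]
  have hT : T.map V.subtype = V := by
    have hn : (T.map V.subtype).Normal := inferInstance
    rcases hmin' _ hn (Subgroup.map_subtype_le _) with h | h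
    · exfalso
      rw [Subgroup.map_eq_bot_iff_of_injective _ V.subtype_injective] at h
      obtain ⟨n, hn⟩ := IsPGroup.iff_card.1 hVp
      have hn0 : n ≠ 0 := by
        rintro rfl
        rw [pow_zero] at hn
        exact hVe ((Subgroup.card_eq_one).1 hn)
      obtain ⟨a, ha⟩ := exists_prime_orderOf_dvd_card' (G := V) p
        (by rw [hn]; exact dvd_pow_self p hn0)
      have h1 : a ∈ T := by
        show a ^ p = 1
        rw [← ha]; exact pow_orderOf_eq_one a
      rw [h, Subgroup.mem_bot] at h1
      rw [h1, orderOf_one] at ha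
      exact (Fact.out : p.Prime).one_lt.ne ha
    · exact h
  intro a
  have ha : (a : G) ∈ T.map V.subtype := by rw [hT]; exact a.2
  obtain ⟨c, hc, hca⟩ := ha
  have h1 : c = a := Subtype.ext hca
  rw [← h1]; exact hc

theorem reduction_aux {p : ℕ} [Fact p.Prime] {k : Type} [Field k] [IsAlgClosed k] [CharP k p]
    (x : ValuationSubring (RatFunc k)) (hx : x ≠ ⊤)
    (hxk : ∀ c : k, algebraMap k (RatFunc k) c ∈ x) (n : ℕ) :
    ∀ (G : Type) [Group G] [Finite G], Nat.card G = n → ∀ (N : Subgroup G) [N.Normal],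
      IsPGroup p N → ∀ (P : Subgroup G), IsPGroup p P →
      Subgroup.normalClosure (P : Set G) = ⊤ →
      Realizable k (G ⧸ N) (fun _ : Fin 1 => P.map (QuotientGroup.mk' N)) (fun _ => x) →
      Realizable k G (fun _ : Fin 1 => P) (fun _ => x) := by
  induction n using Nat.strong_induction_on with
  | _ n ih =>
  intro G _ _ hG N hN hNp P hP hgen h
  by_cases hNe : N = ⊥
  · subst hNe
    apply realizable_congr (QuotientGroup.quotientBot (G := G)).symm
    have h1 : (fun _ : Fin 1 => P.map (QuotientGroup.mk' (⊥ : Subgroup G))) =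
        fun _ : Fin 1 => P.map (QuotientGroup.quotientBot (G := G)).symm.toMonoidHom := by
      funext _
      rfl
    rw [h1] at h
    exact h
  · obtain ⟨V, hVn, hVN, hVe, hmin, hVc, hVp⟩ := exists_minimal (p := p) N hNp hNe
    apply step_realizable (p := p) V hVc hVp hVe hmin P hP hgen x hx hxk
    have hcard : Nat.card (G ⧸ V) < n := by
      rw [← hG, Subgroup.card_eq_card_quotient_mul_card_subgroup V]
      have h1 : 0 < Nat.card (G ⧸ V) := Nat.card_pos
      have h2 : 1 < Nat.card V := by
        have : Nontrivial V := (Subgroup.nontrivial_iff_ne_bot V).2 hVe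
        exact Finite.one_lt_card
      nlinarith
    refine ih _ hcard (G ⧸ V) rfl (N.map (QuotientGroup.mk' V)) (hNp.map _)
      (P.map (QuotientGroup.mk' V)) (hP.map _) ?_ ?_
    · have h1 := Subgroup.map_normalClosure (P : Set G) (QuotientGroup.mk' V)
        (QuotientGroup.mk'_surjective V)
      rw [hgen, Subgroup.map_top_of_surjective _ (QuotientGroup.mk'_surjective V)] at h1
      rw [Subgroup.coe_map]
      exact h1.symm
    · apply realizable_congr (QuotientGroup.quotientQuotientEquivQuotient V N hVN)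
      have h1 : (fun _ : Fin 1 => P.map (QuotientGroup.mk' N)) = fun _ : Fin 1 =>
          ((P.map (QuotientGroup.mk' V)).map (QuotientGroup.mk' (N.map (QuotientGroup.mk' V)))).map
            (QuotientGroup.quotientQuotientEquivQuotient V N hVN).toMonoidHom := by
        funext _
        rw [Subgroup.map_map, Subgroup.map_map]
        congr 1
      rw [h1] at h
      exact h

end Pool.Agent.Helper54.PW
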