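import Pool.Agent.Helper54.PW.Defs

/-!
# Basic facts about `st`, `wp`, `ev`
-/

set_option autoImplicit false
set_option linter.unusedSectionVars false
open scoped Pointwise

namespace Pool.Agent.Helper54.PW

section basic
variable {p : ℕ}

@[simp] theorem st_apply {Q : Type} [Group Q] {W : Subgroup Q} [W.Normal] {E : Type} [Field E]
    (q : Q) (γ : E →+* E) (f : TT p W E) (χ : Dl p W) : st p q γ f χ = γ (f (cj p q χ)) := rfl

@[simp] theorem ev_apply {E : Type} [Field E] [CharP E p] {W : Type} [Group W] (w : W)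
    (χ : Dl p W) : ev p E w χ = ZMod.castHom (dvd_refl p) E (χ (Additive.ofMul w)) := rfl

@[simp] theorem cj_apply {Q : Type} [Group Q] {W : Subgroup Q} [W.Normal] (q : Q) (χ : Dl p W)
    (w : W) : cj p q χ (Additive.ofMul w) = χ (Additive.ofMul (MulAut.conjNormal q w)) := rfl

theorem cj_mul {Q : Type} [Group Q] {W : Subgroup Q} [W.Normal] (q r : Q) (χ : Dl p W) :
    cj p (q * r) χ = cj p r (cj p q χ) := by
  refine AddMonoidHom.ext fun w => ?_
  obtain ⟨w, rfl⟩ := Additive.ofMul.surjective w
  simp [cj_apply, map_mul]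

theorem cj_of_comm {Q : Type} [Group Q] {W : Subgroup Q} [W.Normal] (q : Q)
    (h : ∀ w : W, MulAut.conjNormal q w = w) (χ : Dl p W) : cj p q χ = χ := by
  refine AddMonoidHom.ext fun w => ?_
  obtain ⟨w, rfl⟩ := Additive.ofMul.surjective w
  simp [cj_apply, h]

theorem conjNormal_of_comm {Q : Type} [Group Q] {W : Subgroup Q} [W.Normal]
    (hc : ∀ a b : W, a * b = b * a) (v : W) (w : W) : MulAut.conjNormal (v : Q) w = w := by
  apply Subtype.ext
  rw [MulAut.conjNormal_apply]
  have := congrArg Subtype.val (hc v w)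
  simp only [Subgroup.coe_mul] at this
  rw [this]; group

/-- the trivial action of elements of `W` -/
theorem cj_mem {Q : Type} [Group Q] {W : Subgroup Q} [W.Normal]
    (hc : ∀ a b : W, a * b = b * a) (v : W) (χ : Dl p W) : cj p (v : Q) χ = χ :=
  cj_of_comm _ (conjNormal_of_comm hc v) χ

@[simp] theorem cj_one {Q : Type} [Group Q] {W : Subgroup Q} [W.Normal] (χ : Dl p W) :
    cj p (1 : Q) χ = χ := cj_of_comm _ (by simp) χ

theorem st_mul {Q : Type} [Group Q] {W : Subgroup Q} [W.Normal] {E : Type} [Field E]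
    (q r : Q) (γ δ : E →+* E) (f : TT p W E) :
    st p (q * r) (γ.comp δ) f = st p q γ (st p r δ f) := by
  refine AddMonoidHom.ext fun χ => ?_
  simp [cj_mul]

/-- `st` as an additive homomorphism -/
def stHom (p : ℕ) {Q : Type} [Group Q] {W : Subgroup Q} [W.Normal] {E : Type} [Field E]
    (q : Q) (γ : E →+* E) : TT p W E →+ TT p W E where
  toFun := st p q γ
  map_zero' := by refine AddMonoidHom.ext fun χ => ?_; simp
  map_add' f g := by refine AddMonoidHom.ext fun χ => ?_; simp

theorem stHom_apply {Q : Type} [Group Q] {W : Subgroup Q} [W.Normal] {E : Type} [Field E]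
    (q : Q) (γ : E →+* E) (f : TT p W E) : stHom p q γ f = st p q γ f := rfl

theorem st_add {Q : Type} [Group Q] {W : Subgroup Q} [W.Normal] {E : Type} [Field E]
    (q : Q) (γ : E →+* E) (f g : TT p W E) : st p q γ (f + g) = st p q γ f + st p q γ g :=
  (stHom p q γ).map_add f g

theorem st_sub {Q : Type} [Group Q] {W : Subgroup Q} [W.Normal] {E : Type} [Field E]
    (q : Q) (γ : E →+* E) (f g : TT p W E) : st p q γ (f - g) = st p q γ f - st p q γ g :=
  (stHom p q γ).map_sub f g

theorem st_neg {Q : Type} [Group Q] {W : Subgroup Q} [W.Normal] {E : Type} [Field E]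
    (q : Q) (γ : E →+* E) (f : TT p W E) : st p q γ (-f) = -st p q γ f :=
  (stHom p q γ).map_neg f

theorem castHom_map {E E' : Type} [Field E] [Field E'] [CharP E p] [CharP E' p]
    (γ : E →+* E') (c : ZMod p) :
    γ (ZMod.castHom (dvd_refl p) E c) = ZMod.castHom (dvd_refl p) E' c :=
  DFunLike.congr_fun (Subsingleton.elim (γ.comp (ZMod.castHom (dvd_refl p) E))
    (ZMod.castHom (dvd_refl p) E')) c

variable [Fact p.Prime]

theorem wp_apply {E : Type} [Field E] [CharP E p] (x : E) : wp p E x = x ^ p - x := rfl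

theorem wp_map {E E' : Type} [Field E] [Field E'] [CharP E p] [CharP E' p]
    (γ : E →+* E') (x : E) : wp p E' (γ x) = γ (wp p E x) := by
  simp [wp_apply]

theorem castHom_pow {E : Type} [Field E] [CharP E p] (c : ZMod p) :
    (ZMod.castHom (dvd_refl p) E c) ^ p = ZMod.castHom (dvd_refl p) E c := by
  rw [← map_pow, ZMod.pow_card]

theorem wp_castHom {E : Type} [Field E] [CharP E p] (c : ZMod p) :
    wp p E (ZMod.castHom (dvd_refl p) E c) = 0 := by
  rw [wp_apply, castHom_pow, sub_self]

theorem wp_castHom_mul {E : Type} [Field E] [CharP E p] (c : ZMod p) (x : E) :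
    wp p E (ZMod.castHom (dvd_refl p) E c * x) = ZMod.castHom (dvd_refl p) E c * wp p E x := by
  rw [wp_apply, mul_pow, castHom_pow, wp_apply]; ring

theorem wp_ev {E : Type} [Field E] [CharP E p] {W : Type} [Group W] (w : W) :
    (wp p E).comp (ev p E w) = 0 :=
  AddMonoidHom.ext fun χ => wp_castHom _

theorem wp_st {Q : Type} [Group Q] {W : Subgroup Q} [W.Normal] {E : Type} [Field E] [CharP E p]
    (q : Q) (γ : E →+* E) (f : TT p W E) :
    (wp p E).comp (st p q γ f) = st p q γ ((wp p E).comp f) := by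
  refine AddMonoidHom.ext fun χ => ?_
  simp [wp_map]

theorem st_ev {Q : Type} [Group Q] {W : Subgroup Q} [W.Normal] {E : Type} [Field E] [CharP E p]
    (q : Q) (γ : E →+* E) (w : W) : st p q γ (ev p E w) = ev p E (MulAut.conjNormal q w) := by
  refine AddMonoidHom.ext fun χ => ?_
  simp only [st_apply, ev_apply, castHom_map, cj_apply]

theorem ev_mul {E : Type} [Field E] [CharP E p] {W : Type} [Group W] (v w : W) :
    ev p E (v * w) = ev p E v + ev p E w := by
  refine AddMonoidHom.ext fun χ => ?_
  simp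

theorem ev_one {E : Type} [Field E] [CharP E p] {W : Type} [Group W] :
    ev p E (1 : W) = 0 := by
  refine AddMonoidHom.ext fun χ => ?_
  simp

theorem st_smul {Q : Type} [Group Q] {W : Subgroup Q} [W.Normal] {E : Type} [Field E]
    (q : Q) (γ : E →+* E) (x : E) (f : TT p W E) :
    st p q γ (x • f) = γ x • st p q γ f := by
  refine AddMonoidHom.ext fun χ => ?_
  simp

theorem map_ev {E E' : Type} [Field E] [Field E'] [CharP E p] [CharP E' p] (i : E →+* E')
    {W : Type} [Group W] (w : W) : (i : E →+ E').comp (ev p E w) = ev p E' w := by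
  refine AddMonoidHom.ext fun χ => ?_
  simp only [AddMonoidHom.comp_apply, ev_apply, AddMonoidHom.coe_coe, castHom_map]

theorem map_st {Q : Type} [Group Q] {W : Subgroup Q} [W.Normal] {E E' : Type} [Field E] [Field E']
    (i : E →+* E') (q : Q) (γ : E →+* E) (γ' : E' →+* E') (h : ∀ x, γ' (i x) = i (γ x))
    (f : TT p W E) : (i : E →+ E').comp (st p q γ f) = st p q γ' ((i : E →+ E').comp f) := by
  refine AddMonoidHom.ext fun χ => ?_
  simp [h]

theorem map_wp {W : Type} [Group W] {E E' : Type} [Field E] [Field E'] [CharP E p] [CharP E' p]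
    (i : E →+* E') (f : TT p W E) :
    (i : E →+ E').comp ((wp p E).comp f) = (wp p E').comp ((i : E →+ E').comp f) := by
  refine AddMonoidHom.ext fun χ => ?_
  simp [wp_map]

end basic

/-- integral elements over `k[X]` -/
noncomputable def intSub (k F : Type) [Field k] [Field F] [Algebra (RatFunc k) F] : Subring F :=
  letI := (pk k F).toAlgebra
  (integralClosure (Polynomial k) F).toSubring

theorem mem_intSub {k F : Type} [Field k] [Field F] [Algebra (RatFunc k) F] {x : F} :
    x ∈ intSub k F ↔ (pk k F).IsIntegralElem x := Iff.rfl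

theorem intSub_map {k F : Type} [Field k] [Field F] [Algebra (RatFunc k) F] {x : F}
    (hx : x ∈ intSub k F) (σ : F ≃ₐ[RatFunc k] F) : σ x ∈ intSub k F := by
  have h : (σ : F →+* F).comp (pk k F) = pk k F := by
    refine RingHom.ext fun y => ?_
    simp [pk]
  have h2 := RingHom.IsIntegralElem.map (mem_intSub.1 hx) (σ : F →+* F)
  rw [h] at h2
  exact h2

section incl
variable {p : ℕ} {G : Type} [Group G] {V : Subgroup G} [V.Normal] (P : Subgroup G)

/-- inclusion of `V ∩ P` into `V` -/
def incl (V P : Subgroup G) : ↥(V.subgroupOf P) →* ↥V where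
  toFun w := ⟨(w : P), w.2⟩
  map_one' := rfl
  map_mul' _ _ := rfl

/-- restriction of homomorphisms from `V` to `V ∩ P` -/
def resD (p : ℕ) (V P : Subgroup G) : Dl p V →+ Dl p (V.subgroupOf P) where
  toFun χ := χ.comp (MonoidHom.toAdditive (incl V P))
  map_zero' := by ext; simp
  map_add' χ ψ := by ext; simp

/-- the map `TT p (V ∩ P) E → TT p V E` -/
def jj (p : ℕ) (V P : Subgroup G) {E : Type} [Field E] (f : TT p (V.subgroupOf P) E) : TT p V E :=
  f.comp (resD p V P)

theorem jj_add {E : Type} [Field E] (f g : TT p (V.subgroupOf P) E) :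
    jj p V P (f + g) = jj p V P f + jj p V P g := rfl

theorem jj_sub {E : Type} [Field E] (f g : TT p (V.subgroupOf P) E) :
    jj p V P (f - g) = jj p V P f - jj p V P g := rfl

theorem res_cj (g : P) (χ : Dl p V) :
    resD p V P (cj p (g : G) χ) = cj p g (resD p V P χ) := by
  refine AddMonoidHom.ext fun w => ?_
  obtain ⟨w, rfl⟩ := Additive.ofMul.surjective w
  rfl

theorem jj_st {E : Type} [Field E] (g : P) (γ : E →+* E) (f : TT p (V.subgroupOf P) E) :
    jj p V P (st p g γ f) = st p (g : G) γ (jj p V P f) := by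
  refine AddMonoidHom.ext fun χ => ?_
  simp only [jj, AddMonoidHom.comp_apply, st_apply, res_cj]

theorem jj_ev {E : Type} [Field E] [CharP E p] (w : V.subgroupOf P) :
    jj p V P (ev p E w) = ev p E (incl V P w) := by
  refine AddMonoidHom.ext fun χ => ?_
  rfl

theorem jj_map {E E' : Type} [Field E] [Field E'] (i : E →+* E') (f : TT p (V.subgroupOf P) E) :
    jj p V P ((i : E →+ E').comp f) = (i : E →+ E').comp (jj p V P f) := rfl

theorem jj_wp [Fact p.Prime] {E : Type} [Field E] [CharP E p] (f : TT p (V.subgroupOf P) E) :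
    jj p V P ((wp p E).comp f) = (wp p E).comp (jj p V P f) := rfl
end incl

end Pool.Agent.Helper54.PW
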