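import Pool.Agent.Helper54.PW.Main1
import Pool.Agent.Helper51.PW.ExistsF
import Pool.Agent.Helper92.PW.PullbackN

set_option autoImplicit false
set_option linter.unusedSectionVars false
open scoped Pointwise

namespace Pool.Agent.Helper54.PW

/-- a place pulls back to a place along an algebraic extension -/
theorem comap_place {k L F : Type} [Field k] [Field L] [Field F] [Algebra k L] [Algebra k F]
    [Algebra L F] [IsScalarTower k L F] [Algebra.IsAlgebraic L F] (B : ValuationSubring F)
    (hB : IsPlace k B) : IsPlace k (B.comap (algebraMap L F)) := by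
  refine ⟨fun h => hB.1 ?_, fun c => ?_⟩
  · rw [eq_top_iff]
    intro x _
    have hint : IsIntegral L x := Algebra.IsIntegral.isIntegral x
    have hint2 : IsIntegral B x := by
      obtain ⟨f, hf, hfx⟩ := hint
      have hall : ∀ y : L, algebraMap L F y ∈ B := by
        intro y
        have : y ∈ B.comap (algebraMap L F) := by rw [h]; trivial
        exact this
      let ψ : L →+* B := (algebraMap L F).codRestrict B.toSubring hall
      refine ⟨f.map ψ, hf.map ψ, ?_⟩
      rw [Polynomial.eval₂_map]
      exact hfx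
    obtain ⟨y, hy⟩ := (IsIntegrallyClosed.isIntegral_iff (R := B) (K := F)).1 hint2
    rw [← hy]; exact y.2
  · change algebraMap L F (algebraMap k L c) ∈ B
    rw [← IsScalarTower.algebraMap_apply]
    exact hB.2 c

/-- integral elements lie in finite places -/
theorem mem_of_integral_pk {k F : Type} [Field k] [Field F] [Algebra k F] [Algebra (RatFunc k) F]
    [IsScalarTower k (RatFunc k) F] (B : ValuationSubring F) (hB : ∀ c : k, algebraMap k F c ∈ B)
    (hX : tX k F ∈ B) (x : F) (hx : (pk k F).IsIntegralElem x) : x ∈ B := by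
  have hall : ∀ f : Polynomial k, pk k F f ∈ B := by
    intro f
    induction f using Polynomial.induction_on' with
    | add f g hf hg => rw [map_add]; exact B.add_mem _ _ hf hg
    | monomial n c =>
      rw [← Polynomial.C_mul_X_pow_eq_monomial, map_mul, map_pow]
      have h1 : pk k F (Polynomial.C c) = algebraMap k F c := by
        simp only [pk, RingHom.comp_apply]
        rw [IsScalarTower.algebraMap_apply k (RatFunc k) F]
        congr 1
      have h2 : pk k F Polynomial.X = tX k F := by
        simp [pk, tX]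
      rw [h1, h2]
      exact B.mul_mem _ _ (hB c) (pow_mem hX n)
  obtain ⟨f, hf, hfx⟩ := hx
  let ψ : Polynomial k →+* B := (pk k F).codRestrict B.toSubring hall
  have hint2 : IsIntegral B x := by
    refine ⟨f.map ψ, hf.map ψ, ?_⟩
    rw [Polynomial.eval₂_map]
    exact hfx
  obtain ⟨y, hy⟩ := (IsIntegrallyClosed.isIntegral_iff (R := B) (K := F)).1 hint2
  rw [← hy]; exact y.2

/-- an automorphism stabilizing a place moves its elements by nonunits -/
theorem stab_sub_mem_nonunits {k F : Type} [Field k] [IsAlgClosed k] [Field F] [Algebra k F]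
    (hF : FF k F) {M : Type} [Field M] [Algebra k M] [Algebra M F] [IsScalarTower k M F]
    (B : ValuationSubring F) (hB : IsPlace k B) (σ : F ≃ₐ[M] F) (hσ : σ • B = B) (x : F)
    (hx : x ∈ B) : σ x - x ∈ B.nonunits := by
  obtain ⟨c, hc⟩ := residue hF B hB x hx
  have h1 : σ (x - algebraMap k F c) ∈ B.nonunits := by
    rw [ValuationSubring.mem_nonunits_iff_or] at hc ⊢
    rcases hc with hc | hc
    · left; rw [hc, map_zero]
    · right
      intro h
      apply hc
      rw [← map_inv₀] at h
      have h2 : σ • (x - algebraMap k F c)⁻¹ ∈ σ • B := by rw [hσ]; exact h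
      exact ValuationSubring.smul_mem_pointwise_smul_iff.1 h2
  have h2 : σ x - x = σ (x - algebraMap k F c) - (x - algebraMap k F c) := by
    rw [map_sub, IsScalarTower.algebraMap_apply k M F, AlgEquiv.commutes]; ring
  rw [h2]
  exact sub_mem h1 hc

theorem algEquiv_mem_nonunits {F M : Type} [Field F] [Field M] [Algebra M F]
    (B : ValuationSubring F) (σ : F ≃ₐ[M] F) (hσ : σ • B = B) (x : F)
    (hx : x ∈ B.nonunits) : σ x ∈ B.nonunits := by
  rw [ValuationSubring.mem_nonunits_iff_or] at hx ⊢
  rcases hx with hc | hc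
  · left; rw [hc, map_zero]
  · right
    intro h
    apply hc
    rw [← map_inv₀] at h
    have h2 : σ • x⁻¹ ∈ σ • B := by rw [hσ]; exact h
    exact ValuationSubring.smul_mem_pointwise_smul_iff.1 h2

theorem castHom_mem_nonunits {p : ℕ} [Fact p.Prime] {k F : Type} [Field k] [Field F] [CharP F p]
    [Algebra k F] (B : ValuationSubring F) (c : ZMod p)
    (hc : ZMod.castHom (dvd_refl p) F c ∈ B.nonunits) : c = 0 := by
  by_contra h
  rw [ValuationSubring.mem_nonunits_iff_or] at hc
  rcases hc with hc | hc
  · apply h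
    have := (ZMod.castHom (dvd_refl p) F).injective
    exact this (by rw [hc, map_zero])
  · apply hc
    rw [← map_inv₀]
    obtain ⟨n, hn⟩ := ZMod.intCast_surjective (c⁻¹)
    rw [← hn, map_intCast]
    exact intCast_mem B n

theorem main_step {p : ℕ} [Fact p.Prime] {k L : Type} [Field k] [IsAlgClosed k] [CharP k p]
    [Field L] [CharP L p] [Algebra k L] [Algebra (RatFunc k) L] [IsScalarTower k (RatFunc k) L]
    [FiniteDimensional (RatFunc k) L] [IsGalois (RatFunc k) L]
    {G : Type} [Group G] [Finite G] (V : Subgroup G) [V.Normal]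
    (hVc : ∀ a b : V, a * b = b * a) (hVp : ∀ a : V, a ^ p = 1) (hVne : V ≠ ⊥)
    (hVmin : ∀ W : Subgroup G, W.Normal → W ≤ V → W = ⊥ ∨ W = V)
    (P : Subgroup G) (hP : IsPGroup p P) (hgen : Subgroup.normalClosure (P : Set G) = ⊤)
    (act : G →* (L ≃ₐ[RatFunc k] L))
    (hact : Function.Surjective act) (hker : ∀ g, act g = 1 ↔ g ∈ V)
    (hunr : ∀ A : ValuationSubring L, A ≠ ⊤ →
      (∀ c : k, algebraMap (RatFunc k) L (algebraMap k (RatFunc k) c) ∈ A) → tX k L ∈ A →
      ∀ σ : L ≃ₐ[RatFunc k] L, σ • A = A → σ = 1)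
    (A : ValuationSubring L) (hA : IsPlace k A) (hX : tX k L ∉ A)
    (hst : ∀ σ : L ≃ₐ[RatFunc k] L, σ • A = A ↔ ∃ g ∈ P, act g = σ) :
    RealAct k P := by
  classical
  obtain ⟨β, a₀, β', a', α, v, e, n, δ, hβ, hβV, ha₀, ha₀int, hα, hloc, hv1, hvP, he, hn, hδP,
    hδ, ha₀eq⟩ := level_L (p := p) V act hVc hVp hVne P hP hact hker hunr A hA hX hst
  have hcP : ∀ a b : V.subgroupOf P, a * b = b * a := by
    intro a b
    have := congrArg Subtype.val (hVc (incl V P a) (incl V P b))
    exact Subtype.ext (Subtype.ext this)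
  have hpP : ∀ a : V.subgroupOf P, a ^ p = 1 := by
    intro a
    have := congrArg Subtype.val (hVp (incl V P a))
    refine Subtype.ext (Subtype.ext ?_)
    rw [Subgroup.coe_pow, Subgroup.coe_one] at this
    rw [Subgroup.coe_pow, Subgroup.coe_pow, Subgroup.coe_one, Subgroup.coe_one]
    exact this
  obtain ⟨F, _, _, _, _, _, _, _, _, _, _, B, w', ε, z, hB, hBA, hw', hε, hεB, hz⟩ :=
    exists_F (p := p) A hA hcP hpP hVc hVp a' δ hδ (algebraMap k L α * tX k L)
  have hFF : FF k F := ff_of_algebraic k F
  have hkF : ∀ c : k, algebraMap L F (algebraMap k L c) = algebraMap k F c := fun c =>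
    (IsScalarTower.algebraMap_apply k L F c).symm
  have htF : algebraMap L F (tX k L) = tX k F :=
    (IsScalarTower.algebraMap_apply (RatFunc k) L F _).symm
  have hz' : z ^ p - z = algebraMap k F α * tX k F := by
    rw [hz, map_mul, hkF, htF]
  obtain ⟨hloc1, hloc2⟩ := hloc F B hB hBA w' hw' z hz'
  set i : L →+* F := algebraMap L F with hi
  -- the solution
  let w : TT p V F := jj p V P w' + (i : L →+ F).comp e + z • ev p F v
    - (i : L →+ F).comp n - ε
  have hw : ∀ χ, wp p F (w χ) = i (a₀ χ) := by
    intro χ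
    have h1 : wp p F (jj p V P w' χ) = i (jj p V P a' χ) := hw' _
    have h2 : wp p F (z * ev p F v χ) = i ((algebraMap k L α * tX k L) * ev p L v χ) := by
      rw [ev_apply, mul_comm, wp_castHom_mul, wp_apply, hz', map_mul, map_mul, hkF, htF, ev_apply,
        castHom_map]
      ring
    rw [ha₀eq]
    simp only [w, AddMonoidHom.add_apply, AddMonoidHom.sub_apply, AddMonoidHom.comp_apply,
      AddMonoidHom.smul_apply, smul_eq_mul, map_add, map_sub, AddMonoidHom.coe_coe, h1, h2,
      hε χ, wp_map]
  obtain ⟨ρ, hρL, hρw, hρu⟩ := sol_hom (p := p) (Q := G) (W := V) hVc hVp i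
    (fun g => (act g : L →+* L)) (fun g h x => actmul act g h x) (by
      intro q
      rw [← hker]
      constructor
      · intro h; exact AlgEquiv.ext h
      · intro h x; simp [h])
    (fun σ : F ≃ₐ[RatFunc k] F => (σ : F →+* F)) (fun γ δ x => rfl) (by
      intro γ
      obtain ⟨g, hg⟩ := hact (AlgEquiv.restrictNormalHom L γ)
      refine ⟨g, fun x => ?_⟩
      rw [hg]
      exact (AlgEquiv.restrictNormal_commutes γ L x).symm)
    β hβ hβV a₀ ha₀ w hw
  -- the value of ρ on the decomposition group
  have key : ∀ (σ : F ≃ₐ[RatFunc k] F) (g : P) (c : ZMod p), σ • B = B →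
      (∀ x : L, σ (i x) = i (act (g : G) x)) →
      st p g (σ : F →+* F) w' = w' + (i : L →+ F).comp (β' g) →
      σ z = z + ZMod.castHom (dvd_refl p) F c → ρ σ = (v : G) ^ c.val * g := by
    intro σ g c hσB hσL hσw hσz
    symm
    have hvg : ∀ χ : Dl p V, cj p ((v : G) ^ c.val * g) χ = cj p (g : G) χ := by
      intro χ
      rw [cj_mul]
      have : cj p ((v : G) ^ c.val) χ = χ := by
        have := cj_mem (p := p) hVc (v ^ c.val) χ
        rwa [Subgroup.coe_pow] at this
      rw [this]
    apply hρu
    · intro x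
      have hv' : act ((v : G) ^ c.val) = 1 := by
        rw [hker]; exact V.pow_mem v.2 _
      show σ (i x) = i (act ((v : G) ^ c.val * g) x)
      rw [map_mul, hv', one_mul]; exact hσL x
    · have h1 : st p ((v : G) ^ c.val * g) (σ : F →+* F) w = st p (g : G) (σ : F →+* F) w := by
        refine AddMonoidHom.ext fun χ => ?_
        rw [st_apply, st_apply, hvg]
      rw [h1]
      have e1 : st p (g : G) (σ : F →+* F) (jj p V P w') =
          jj p V P w' + (i : L →+ F).comp (jj p V P (β' g)) := by
        rw [← jj_st P g, hσw]; rfl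
      have e2 : st p (g : G) (σ : F →+* F) ((i : L →+ F).comp e) =
          (i : L →+ F).comp (e + (β g - jj p V P (β' g))) := by
        rw [← map_st i (g : G) (act (g : G) : L →+* L) (σ : F →+* F) hσL, he g]
        congr 1; abel
      have e3 : st p (g : G) (σ : F →+* F) (z • ev p F v) =
          (z + ZMod.castHom (dvd_refl p) F c) • ev p F v := by
        rw [st_smul, st_ev, hvP g g.2]
        congr 1
      have e4 : st p (g : G) (σ : F →+* F) ((i : L →+ F).comp n) = (i : L →+ F).comp n := by
        rw [← map_st i (g : G) (act (g : G) : L →+* L) (σ : F →+* F) hσL, hn g g.2]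
      have e5 : st p (g : G) (σ : F →+* F) ε = ε := by
        have hd : (wp p F).comp (st p (g : G) (σ : F →+* F) ε - ε) = 0 := by
          rw [AddMonoidHom.comp_sub, wp_st]
          have : (wp p F).comp ε = (i : L →+ F).comp δ := AddMonoidHom.ext hε
          rw [this, ← map_st i (g : G) (act (g : G) : L →+* L) (σ : F →+* F) hσL, hδP g g.2,
            sub_self]
        obtain ⟨u, hu⟩ := exists_ev_of_fixed (p := p) hVc hVp F
          (st p (g : G) (σ : F →+* F) ε - ε) (by
            intro χ
            have := DFunLike.congr_fun hd χ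
            rw [AddMonoidHom.comp_apply, wp_apply] at this
            exact sub_eq_zero.1 this)
        have hu1 : u = 1 := by
          by_contra hne
          obtain ⟨χ, hχ⟩ := exists_dual_ne_zero (p := p) hVc hVp u hne
          apply hχ
          apply castHom_mem_nonunits (k := k) B
          rw [← ev_apply, ← hu, AddMonoidHom.sub_apply, st_apply]
          exact sub_mem (algEquiv_mem_nonunits B σ hσB _ (hεB _)) (hεB _)
        rw [hu1, ev_one] at hu
        exact sub_eq_zero.1 hu
      have e6 : β ((v : G) ^ c.val * g) = ZMod.castHom (dvd_refl p) L c • ev p L v + β g := by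
        have h2 : β ((v : G) ^ c.val) = ev p L (v ^ c.val) := by
          rw [← hβV]; rw [Subgroup.coe_pow]
        have h3 : st p ((v : G) ^ c.val) (act ((v : G) ^ c.val) : L →+* L) (β g) = β g := by
          refine AddMonoidHom.ext fun χ => ?_
          have hv' : act ((v : G) ^ c.val) = 1 := by
            rw [hker]; exact V.pow_mem v.2 _
          have := cj_mem (p := p) hVc (v ^ c.val) χ
          rw [Subgroup.coe_pow] at this
          rw [st_apply, hv', this]; rfl
        have h4 : ev p L (v ^ c.val) = ZMod.castHom (dvd_refl p) L c • ev p L v := by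
          refine AddMonoidHom.ext fun χ => ?_
          rw [ev_apply, ofMul_pow, map_nsmul, nsmul_eq_mul, ZMod.natCast_zmod_val, map_mul]
          rfl
        rw [hβ, h2, h3, h4]
      have hexp : w = jj p V P w' + (i : L →+ F).comp e + z • ev p F v
          - (i : L →+ F).comp n - ε := rfl
      conv_lhs => rw [hexp, st_sub, st_sub, st_add, st_add, e1, e2, e3, e4, e5]
      rw [e6, hexp]
      refine AddMonoidHom.ext fun χ => ?_
      simp only [AddMonoidHom.add_apply, AddMonoidHom.sub_apply, AddMonoidHom.comp_apply,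
        AddMonoidHom.smul_apply, smul_eq_mul, map_add, map_sub, AddMonoidHom.coe_coe, map_mul,
        castHom_map, ev_apply]
      ring
  -- elements of the decomposition group
  have hD : ∀ σ : F ≃ₐ[RatFunc k] F, σ • B = B → σ z = z → ρ σ ∈ P := by
    intro σ hσB hσz
    obtain ⟨g, c, h1, h2, h3⟩ := hloc1 σ hσB
    have hc : c = 0 := by
      have : ZMod.castHom (dvd_refl p) F c = 0 := by
        rw [hσz] at h3
        exact (left_eq_add.1 h3)
      exact (ZMod.castHom (dvd_refl p) F).injective (by rw [this, map_zero])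
    rw [key σ g c hσB h1 h2 h3, hc, ZMod.val_zero, pow_zero, one_mul]
    exact g.2
  have hD2 : ∀ g : P, ∃ σ : F ≃ₐ[RatFunc k] F, σ • B = B ∧ σ z = z ∧ ρ σ = g := by
    intro g
    obtain ⟨σ, h0, h1, h2, h3⟩ := hloc2 g 0
    refine ⟨σ, h0, by rw [h3, map_zero, add_zero], ?_⟩
    rw [key σ g 0 h0 h1 h2 h3, ZMod.val_zero, pow_zero, one_mul]
  obtain ⟨τ, hτB, hτL, hτw, hτz⟩ := hloc2 1 1
  have hτ : ρ τ = v := by
    rw [key τ 1 1 hτB hτL hτw hτz]
    have : Fact (1 < p) := ⟨(Fact.out : p.Prime).one_lt⟩
    rw [ZMod.val_one, pow_one, Subgroup.coe_one, mul_one]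
  -- surjectivity of ρ
  have hres : ∀ g : G, ∃ σ : F ≃ₐ[RatFunc k] F, ∃ u ∈ V, g = ρ σ * u := by
    intro g
    obtain ⟨σ, hσ⟩ := AlgEquiv.restrictNormalHom_surjective (F := RatFunc k) (K₁ := L) F (act g)
    refine ⟨σ, (ρ σ)⁻¹ * g, ?_, by group⟩
    rw [← hker, map_mul, map_inv, inv_mul_eq_one]
    refine AlgEquiv.ext fun x => ?_
    have h1 : σ (i x) = i (act (ρ σ) x) := hρL σ x
    have h2 : i ((AlgEquiv.restrictNormalHom L σ) x) = σ (i x) :=
      AlgEquiv.restrictNormal_commutes σ L x
    rw [hσ, h1] at h2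
    exact i.injective h2.symm
  have htop : ρ.range = ⊤ := by
    refine eq_top_of_meets V hVc hVmin ρ.range ?_ v hv1 ⟨τ, hτ⟩
    intro g
    obtain ⟨σ, u, hu, h⟩ := hres g
    exact ⟨ρ σ, ⟨σ, rfl⟩, u, hu, h⟩
  have hsurj : Function.Surjective ρ := MonoidHom.range_eq_top.1 htop
  -- the subgroup fixing z is normal
  have hzc : ∀ σ : F ≃ₐ[RatFunc k] F, ∃ c : ZMod p, σ z = z + ZMod.castHom (dvd_refl p) F c := by
    intro σ
    have h1 : (σ z - z) ^ p = σ z - z := by
      have h2 : σ (z ^ p - z) = z ^ p - z := by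
        rw [hz', map_mul, tX, IsScalarTower.algebraMap_apply k (RatFunc k) F,
          AlgEquiv.commutes, AlgEquiv.commutes]
      rw [sub_pow_expChar]
      rw [map_sub, map_pow] at h2
      linear_combination h2
    obtain ⟨u, hu⟩ : ∃ u : ZMod p, ZMod.castHom (dvd_refl p) F u = σ z - z := by
      have hmem : σ z - z ∈ (ZMod.castHom (dvd_refl p) F).fieldRange := by
        rw [ZMod.fieldRange_castHom_eq_bot]
        exact (Subfield.mem_bot_iff_pow_eq_self F p).2 h1
      exact hmem
    exact ⟨u, by rw [hu]; ring⟩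
  let Γ₁ : Subgroup (F ≃ₐ[RatFunc k] F) :=
    { carrier := {σ | σ z = z}
      mul_mem' := fun {a b} ha hb => by
        show (a * b) z = z
        rw [AlgEquiv.mul_apply]
        have hb' : b z = z := hb
        rw [hb']; exact ha
      one_mem' := rfl
      inv_mem' := fun {a} ha => by
        show a⁻¹ z = z
        have ha' : a z = z := ha
        conv_lhs => rw [← ha']
        exact AlgEquiv.symm_apply_apply a z }
  have hΓ₁n : Γ₁.Normal := by
    constructor
    intro σ hσ τ
    obtain ⟨c, hc⟩ := hzc τ
    have hσ' : σ z = z := hσ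
    obtain ⟨c', hc'⟩ := hzc τ⁻¹
    show (τ * σ * τ⁻¹) z = z
    rw [AlgEquiv.mul_apply, AlgEquiv.mul_apply, hc', map_add, hσ']
    have h1 : σ (ZMod.castHom (dvd_refl p) F c') = ZMod.castHom (dvd_refl p) F c' :=
      castHom_map (σ : F →+* F) c'
    rw [h1, ← hc']
    exact AlgEquiv.apply_symm_apply τ z
  have hΓ₁top : Γ₁.map ρ = ⊤ := by
    have hnorm : (Γ₁.map ρ).Normal := Subgroup.Normal.map hΓ₁n ρ hsurj
    rw [eq_top_iff, ← hgen]
    apply Subgroup.normalClosure_le_normal
    intro g hg
    obtain ⟨σ, -, h2, h3⟩ := hD2 ⟨g, hg⟩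
    exact ⟨σ, h2, h3⟩
  have hzB : z ∉ B := by
    intro h
    have h1 : tX k F ∈ B := by
      have h2 : algebraMap k F α⁻¹ * (z ^ p - z) ∈ B :=
        B.mul_mem _ _ (hB.2 _) (sub_mem (pow_mem h p) h)
      rw [hz', ← mul_assoc, ← map_mul, inv_mul_cancel₀ hα, map_one, one_mul] at h2
      exact h2
    apply hX
    rw [← hBA]
    show algebraMap L F (tX k L) ∈ B
    rw [htF]; exact h1
  refine realAct_of_pullback P z α hα hz' ρ ?_ ?_ B hB hzB ?_
  · intro g
    have : g ∈ Γ₁.map ρ := by rw [hΓ₁top]; trivial
    obtain ⟨σ, h1, h2⟩ := this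
    exact ⟨σ, h1, h2⟩
  · intro A' hA' hzA' σ hσz hσA'
    have htA' : tX k F ∈ A' := by
      have h2 : algebraMap k F α⁻¹ * (z ^ p - z) ∈ A' :=
        A'.mul_mem _ _ (hA'.2 _) (sub_mem (pow_mem hzA' p) hzA')
      rw [hz', ← mul_assoc, ← map_mul, inv_mul_cancel₀ hα, map_one, one_mul] at h2
      exact h2
    have : FiniteDimensional L F := Module.Finite.of_restrictScalars_finite (RatFunc k) L F
    have hpl := comap_place (L := L) A' hA'
    have h1 : act (ρ σ) = 1 := by
      refine hunr (A'.comap (algebraMap L F)) hpl.1 ?_ ?_ _ ?_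
      · intro c
        rw [← IsScalarTower.algebraMap_apply]
        exact hpl.2 c
      · show algebraMap L F (tX k L) ∈ A'
        rw [htF]; exact htA'
      · ext x
        rw [ValuationSubring.mem_pointwise_smul_iff_inv_smul_mem]
        have hσinv : σ⁻¹ • A' = A' := by
          conv_lhs => rw [← hσA']
          rw [inv_smul_smul]
        have h3 : ∀ y : L, algebraMap L F ((act (ρ σ))⁻¹ y) = σ⁻¹ (algebraMap L F y) := by
          intro y
          have := hρL σ⁻¹ y
          rw [map_inv, map_inv] at this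
          exact this.symm
        show algebraMap L F ((act (ρ σ))⁻¹ x) ∈ A' ↔ algebraMap L F x ∈ A'
        rw [h3]
        constructor
        · intro h
          have h4 : σ • (σ⁻¹ (algebraMap L F x)) ∈ σ • A' :=
            ValuationSubring.smul_mem_pointwise_smul _ _ _ h
          rw [hσA'] at h4
          have h5 : σ • (σ⁻¹ (algebraMap L F x)) = algebraMap L F x :=
            AlgEquiv.apply_symm_apply σ _
          rwa [h5] at h4
        · intro h
          have h4 : σ⁻¹ • (algebraMap L F x) ∈ σ⁻¹ • A' :=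
            ValuationSubring.smul_mem_pointwise_smul _ _ _ h
          rw [hσinv] at h4
          exact h4
    rw [hker] at h1
    -- σ moves w by a constant
    set u : V := ⟨ρ σ, h1⟩ with hu
    have h2 := hρw σ
    have h3 : u = 1 := by
      by_contra hne
      obtain ⟨χ, hχ⟩ := exists_dual_ne_zero (p := p) hVc hVp u hne
      apply hχ
      apply castHom_mem_nonunits (k := k) A'
      have h4 := DFunLike.congr_fun h2 χ
      have h5 : cj p (ρ σ) χ = χ := cj_mem (p := p) hVc u χ
      have h6 : β (ρ σ) = ev p L u := hβV u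
      rw [st_apply, h5, h6, map_ev, AddMonoidHom.add_apply, ev_apply] at h4
      have h7 : ZMod.castHom (dvd_refl p) F (χ (Additive.ofMul u)) = σ (w χ) - w χ := by
        have h8 : σ (w χ) = w χ + ZMod.castHom (dvd_refl p) F (χ (Additive.ofMul u)) := h4
        rw [h8]; ring
      rw [h7]
      apply stab_sub_mem_nonunits hFF A' hA' σ hσA'
      -- w χ is integral over A'
      have h9 : i (a₀ χ) ∈ A' := by
        apply mem_of_integral_pk A' hA'.2 htA'
        have := RingHom.IsIntegralElem.map (ha₀int χ) i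
        have h10 : i.comp (pk k L) = pk k F := by
          refine RingHom.ext fun y => ?_
          simp only [pk, RingHom.comp_apply, hi]
          rw [← IsScalarTower.algebraMap_apply]
        rwa [h10] at this
      have h11 := hw χ
      rw [wp_apply] at h11
      have hint : IsIntegral A' (w χ) := by
        refine ⟨Polynomial.X ^ p - Polynomial.X - Polynomial.C ⟨i (a₀ χ), h9⟩, ?_, ?_⟩
        · have hp1 : 1 < p := (Fact.out : p.Prime).one_lt
          rw [sub_sub]
          apply Polynomial.monic_X_pow_sub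
          refine lt_of_le_of_lt (Polynomial.degree_add_le _ _) ?_
          refine max_lt (lt_of_le_of_lt Polynomial.degree_X_le ?_)
            (lt_of_le_of_lt Polynomial.degree_C_le ?_)
          · exact_mod_cast hp1
          · exact_mod_cast (Nat.zero_lt_of_lt hp1)
        · simp only [Polynomial.eval₂_sub, Polynomial.eval₂_pow, Polynomial.eval₂_X,
            Polynomial.eval₂_C]
          rw [h11]; exact sub_self _
      obtain ⟨y, hy⟩ := (IsIntegrallyClosed.isIntegral_iff (R := A') (K := F)).1 hint
      rw [← hy]; exact y.2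
    have h12 : ρ σ = (u : G) := rfl
    rw [h12, h3]; rfl
  · intro g
    constructor
    · intro hg
      obtain ⟨σ, h1, h2, h3⟩ := hD2 ⟨g, hg⟩
      exact ⟨σ, h2, h1, h3⟩
    · rintro ⟨σ, h1, h2, rfl⟩
      exact hD σ h2 h1

end Pool.Agent.Helper54.PW
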