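import Mathlib

/-!
# Definitions for the reduction of the purely wild inertia conjecture modulo normal p-subgroups

`Dl p W` is the group of homomorphisms from `W` to `Z/p`, `TT p W E` is the group of additive maps
`Dl p W → E` (for an elementary abelian `p`-group `W` this is `W ⊗ E`), `ev` is the map `W → TT p W E`,
`wp` is `x ↦ x^p - x`, and `st q γ` is the diagonal action of a pair `(q, γ)` on `TT p W E`.
-/

set_option autoImplicit false
open scoped Pointwise

namespace Pool.Agent.Helper54.PW

/-- homomorphisms from `W` to `Z/p`, written additively -/
abbrev Dl (p : ℕ) (W : Type) [Group W] : Type := Additive W →+ ZMod p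

/-- additive maps from the dual of `W` to `E` -/
abbrev TT (p : ℕ) (W : Type) [Group W] (E : Type) [AddCommGroup E] : Type := Dl p W →+ E

/-- evaluation at an element of `W` -/
def ev (p : ℕ) (E : Type) [Field E] [CharP E p] {W : Type} [Group W] (w : W) : TT p W E where
  toFun χ := ZMod.castHom (dvd_refl p) E (χ (Additive.ofMul w))
  map_zero' := by simp
  map_add' χ ψ := by simp

/-- the Artin-Schreier operator `x ↦ x^p - x` -/
def wp (p : ℕ) [Fact p.Prime] (E : Type) [Field E] [CharP E p] : E →+ E :=
  (frobenius E p).toAddMonoidHom - AddMonoidHom.id E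

/-- conjugation by `q` on the dual of a normal subgroup `W`: `(cj p q χ) w = χ (q w q⁻¹)` -/
def cj (p : ℕ) {Q : Type} [Group Q] {W : Subgroup Q} [W.Normal] (q : Q) : Dl p W →+ Dl p W where
  toFun χ := χ.comp (MonoidHom.toAdditive (MulAut.conjNormal (H := W) q).toMonoidHom)
  map_zero' := by ext; simp
  map_add' χ ψ := by ext; simp

/-- the diagonal action: `(st p q γ f) χ = γ (f (χ ∘ conj q))` -/
def st (p : ℕ) {Q : Type} [Group Q] {W : Subgroup Q} [W.Normal] {E : Type} [Field E]
    (q : Q) (γ : E →+* E) (f : TT p W E) : TT p W E :=
  (γ : E →+ E).comp (f.comp (cj p q))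

/-- `F` is a function field of one variable over `k` (or algebraic over `k`), in the weak sense that it is
algebraic over `k(x)` for every `x` transcendental over `k` -/
def FF (k F : Type) [Field k] [Field F] [Algebra k F] : Prop :=
  ∀ x y : F, Transcendental k x → IsAlgebraic (IntermediateField.adjoin k {x}) y

/-- a place of `F` over `k`: a valuation subring containing the constants, different from `F` -/
def IsPlace (k : Type) {F : Type} [Field k] [Field F] [Algebra k F] (A : ValuationSubring F) : Prop :=
  A ≠ ⊤ ∧ ∀ c : k, algebraMap k F c ∈ A

/-- the variable of the rational function field, as an element of an extension -/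
noncomputable def tX (k F : Type) [Field k] [Field F] [Algebra (RatFunc k) F] : F :=
  algebraMap (RatFunc k) F RatFunc.X

/-- the ring homomorphism `k[X] → F` for an extension `F` of `k(X)` -/
noncomputable def pk (k F : Type) [Field k] [Field F] [Algebra (RatFunc k) F] : Polynomial k →+* F :=
  (algebraMap (RatFunc k) F).comp (algebraMap (Polynomial k) (RatFunc k))

end Pool.Agent.Helper54.PW
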