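import Pool.Agent.Helper54.PW.Basic

set_option autoImplicit false
open scoped Pointwise

namespace Pool.Agent.Helper54.PW

/-- a p-group acting by conjugation on a nontrivial normal p-subgroup has a nontrivial fixed point -/
theorem exists_fixed_conj {p : ℕ} [Fact p.Prime] {G : Type} [Group G] [Finite G] (V : Subgroup G)
    [V.Normal] (hV : IsPGroup p V) (hVne : V ≠ ⊥) (P : Subgroup G) (hP : IsPGroup p P) :
    ∃ v : V, v ≠ 1 ∧ ∀ g ∈ P, MulAut.conjNormal g v = v := by
  letI : MulAction P V := MulAction.compHom V ((MulAut.conjNormal (H := V)).comp P.subtype)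
  have hcard : p ∣ Nat.card V := by
    obtain ⟨n, hn⟩ := IsPGroup.iff_card.1 hV
    have : n ≠ 0 := by
      rintro rfl
      apply hVne
      rw [← Subgroup.card_eq_one]
      simpa using hn
    rw [hn]
    exact dvd_pow_self p this
  have h1 : (1 : V) ∈ MulAction.fixedPoints P V := by
    intro g
    exact map_one (MulAut.conjNormal (H := V) (g : G))
  obtain ⟨v, hv, hv1⟩ := hP.exists_fixed_point_of_prime_dvd_card_of_fixed_point V hcard h1
  refine ⟨v, fun h => hv1 h.symm, fun g hg => ?_⟩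
  exact hv ⟨g, hg⟩

/-- a subgroup supplementing a minimal normal abelian subgroup and meeting it nontrivially is everything -/
theorem eq_top_of_meets {G : Type} [Group G] (V : Subgroup G) [V.Normal]
    (hVc : ∀ a b : V, a * b = b * a)
    (hVmin : ∀ W : Subgroup G, W.Normal → W ≤ V → W = ⊥ ∨ W = V)
    (J : Subgroup G) (hJ : ∀ g : G, ∃ j ∈ J, ∃ v ∈ V, g = j * v) (v : V) (hv : v ≠ 1)
    (hvJ : (v : G) ∈ J) : J = ⊤ := by
  have hn : (J ⊓ V).Normal := by
    constructor
    rintro x ⟨hxJ, hxV⟩ g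
    obtain ⟨j, hj, w, hw, rfl⟩ := hJ g
    have hcomm : w * x * w⁻¹ = x := by
      have := congrArg Subtype.val (hVc ⟨w, hw⟩ ⟨x, hxV⟩)
      simp only [Subgroup.coe_mul] at this
      rw [this]; group
    have : j * w * x * (j * w)⁻¹ = j * (w * x * w⁻¹) * j⁻¹ := by group
    rw [this, hcomm]
    exact ⟨J.mul_mem (J.mul_mem hj hxJ) (J.inv_mem hj),
      Subgroup.Normal.conj_mem ‹V.Normal› x hxV j⟩
  have hle : V ≤ J := by
    rcases hVmin _ hn inf_le_right with h | h
    · exfalso
      apply hv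
      have : (v : G) ∈ J ⊓ V := ⟨hvJ, v.2⟩
      rw [h, Subgroup.mem_bot] at this
      exact Subtype.ext this
    · rw [← h]; exact inf_le_left
  rw [eq_top_iff]
  intro g _
  obtain ⟨j, hj, w, hw, rfl⟩ := hJ g
  exact J.mul_mem hj (hle hw)

end Pool.Agent.Helper54.PW
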