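import Pool.Agent.Helper54.PW.GroupFacts
import Pool.Agent.Helper51.PW.Degree
import Pool.Agent.Helper51.PW.Density
import Pool.Agent.Helper51.PW.SolHom
import Pool.Agent.Helper50.PW.Crossed
import Pool.Agent.Helper29.PW.TraceOne
import Pool.Agent.Helper79.PW.Transitive
import Pool.Agent.Helper97.PW.PGroup
import Pool.Agent.Helper18.PW.Places1

set_option autoImplicit false
set_option linter.unusedSectionVars false
open scoped Pointwise

namespace Pool.Agent.Helper54.PW

/-- the trace of an element of `TT p W L` over `P/W` is `P`-invariant -/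
theorem trace_inv {p : ℕ} {P : Type} [Group P] {W : Subgroup P} [W.Normal] [Fintype (P ⧸ W)]
    (hc : ∀ a b : W, a * b = b * a) {L : Type} [Field L] (act : P → L →+* L)
    (hmul : ∀ g h x, act (g * h) x = act g (act h x)) (hone : ∀ w ∈ W, ∀ x, act w x = x)
    (u : TT p W L) (g : P) :
    st p g (act g) (∑ h : P ⧸ W, st p h.out (act h.out) u) =
      ∑ h : P ⧸ W, st p h.out (act h.out) u := by
  have h1 : st p g (act g) (∑ h : P ⧸ W, st p h.out (act h.out) u) =
      ∑ h : P ⧸ W, st p g (act g) (st p h.out (act h.out) u) :=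
    map_sum (stHom p g (act g)) _ _
  rw [h1, ← Equiv.sum_comp (MulAction.toPerm g : Equiv.Perm (P ⧸ W))
    (fun h => st p h.out (act h.out) u)]
  refine Finset.sum_congr rfl fun h _ => ?_
  have h2 : st p g (act g) (st p h.out (act h.out) u) = st p (g * h.out) (act (g * h.out)) u := by
    rw [← st_mul]
    congr 1
    exact RingHom.ext fun x => (hmul g h.out x).symm
  rw [h2]
  have h3 : (((MulAction.toPerm g : Equiv.Perm (P ⧸ W)) h).out)⁻¹ * (g * h.out) ∈ W := by
    rw [← QuotientGroup.eq]
    simp only [QuotientGroup.out_eq', MulAction.toPerm_apply]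
    conv_lhs => rw [← QuotientGroup.out_eq' h]
    rfl
  set r := ((MulAction.toPerm g : Equiv.Perm (P ⧸ W)) h).out with hr
  have h4 : g * h.out = r * (r⁻¹ * (g * h.out)) := by group
  rw [h4]
  refine AddMonoidHom.ext fun χ => ?_
  rw [st_apply, st_apply, hmul, hone _ h3, cj_mul]
  have := cj_mem (p := p) hc ⟨r⁻¹ * (g * h.out), h3⟩ (cj p r χ)
  simp only at this
  rw [this]

/-- values of the trace on invariant characters -/
theorem trace_apply_inv {p : ℕ} [Fact p.Prime] {P : Type} [Group P] {W : Subgroup P} [W.Normal]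
    [Fintype (P ⧸ W)] {L : Type} [Field L] [CharP L p] (act : P → L →+* L)
    (b : L) (hb : ∑ h : P ⧸ W, act h.out b = 1) (t : L) (ht : ∀ g, act g t = t) (v : W)
    (χ : Dl p W) (hχ : ∀ g : P, cj p g χ = χ) :
    (∑ h : P ⧸ W, st p h.out (act h.out) ((b * t) • ev p L v)) χ =
      ZMod.castHom (dvd_refl p) L (χ (Additive.ofMul v)) * t := by
  have h0 : (∑ h : P ⧸ W, st p h.out (act h.out) ((b * t) • ev p L v)) χ =
      ∑ h : P ⧸ W, (st p h.out (act h.out) ((b * t) • ev p L v)) χ := by
    exact map_sum (AddMonoidHom.eval χ) _ _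
  rw [h0]
  have h1 : ∀ h : P ⧸ W, (st p h.out (act h.out) ((b * t) • ev p L v)) χ =
      act h.out b * (ZMod.castHom (dvd_refl p) L (χ (Additive.ofMul v)) * t) := by
    intro h
    rw [st_apply, hχ, AddMonoidHom.smul_apply, smul_eq_mul, map_mul, map_mul, ht, ev_apply,
      castHom_map]
    ring
  rw [Finset.sum_congr rfl fun h _ => h1 h, ← Finset.sum_mul, hb, one_mul]

/-- lifting a decomposition element -/
theorem lift_stab' {k K L F : Type} [Field k] [IsAlgClosed k] [Field K] [Field L] [Field F]
    [Algebra k K] [Algebra k L] [Algebra k F] [Algebra K L] [Algebra K F] [Algebra L F]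
    [IsScalarTower k K F] [IsScalarTower K L F] [IsScalarTower k L F] [IsScalarTower k K L]
    [FiniteDimensional K F] [IsGalois K F] [IsGalois K L] (hF : FF k F)
    (B : ValuationSubring F) (hB : IsPlace k B) (τ : L ≃ₐ[K] L)
    (hτ : τ • (B.comap (algebraMap L F)) = B.comap (algebraMap L F)) :
    ∃ γ : F ≃ₐ[K] F, γ • B = B ∧ ∀ x : L, γ (algebraMap L F x) = algebraMap L F (τ x) := by
  have : FiniteDimensional L F := Module.Finite.of_restrictScalars_finite K L F
  have : IsGalois L F := IsGalois.tower_top_of_isGalois K L F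
  obtain ⟨γ, hγ⟩ := AlgEquiv.restrictNormalHom_surjective (F := K) (K₁ := L) F τ
  have hγL : ∀ x : L, γ (algebraMap L F x) = algebraMap L F (τ x) := by
    intro x
    rw [← hγ]
    exact (AlgEquiv.restrictNormal_commutes γ L x).symm
  have hp : IsPlace k (γ • B) := by
    refine ⟨fun h => hB.1 ?_, fun c => ?_⟩
    · rw [eq_top_iff]
      intro y _
      have : γ • y ∈ γ • B := by rw [h]; trivial
      exact ValuationSubring.smul_mem_pointwise_smul_iff.mp this
    · rw [ValuationSubring.mem_smul_pointwise_iff_exists]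
      refine ⟨_, hB.2 c, ?_⟩
      rw [IsScalarTower.algebraMap_apply k K F]
      exact γ.commutes _
  have hcm : (γ • B).comap (algebraMap L F) = B.comap (algebraMap L F) := by
    conv_rhs => rw [← hτ]
    ext x
    rw [ValuationSubring.mem_pointwise_smul_iff_inv_smul_mem]
    show algebraMap L F x ∈ γ • B ↔ algebraMap L F (τ⁻¹ x) ∈ B
    rw [ValuationSubring.mem_pointwise_smul_iff_inv_smul_mem]
    have : γ⁻¹ • (algebraMap L F x) = algebraMap L F (τ⁻¹ x) := by
      rw [inv_smul_eq_iff]
      show algebraMap L F x = γ (algebraMap L F (τ⁻¹ x))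
      rw [hγL]
      congr 1
      exact (AlgEquiv.apply_symm_apply τ x).symm
    rw [this]
  obtain ⟨σ, hσ⟩ := places_transitive (k := k) (M := L) hF (γ • B) B hp hB hcm
  refine ⟨(σ.restrictScalars K) * γ, ?_, ?_⟩
  · rw [mul_smul]; exact hσ
  · intro x
    rw [AlgEquiv.mul_apply, hγL]
    exact σ.commutes _

/-- the restriction of a decomposition element stabilizes the place below -/
theorem restrict_stab {K L F : Type} [Field K] [Field L] [Field F] [Algebra K L] [Algebra K F]
    [Algebra L F] (B : ValuationSubring F) (γ : F ≃ₐ[K] F) (hγ : γ • B = B) (τ : L ≃ₐ[K] L)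
    (hτ : ∀ x : L, γ (algebraMap L F x) = algebraMap L F (τ x)) :
    τ • (B.comap (algebraMap L F)) = B.comap (algebraMap L F) := by
  ext x
  rw [ValuationSubring.mem_pointwise_smul_iff_inv_smul_mem]
  show algebraMap L F (τ⁻¹ x) ∈ B ↔ algebraMap L F x ∈ B
  have h1 : γ • (algebraMap L F (τ⁻¹ x)) = algebraMap L F x := by
    show γ (algebraMap L F (τ⁻¹ x)) = _
    rw [hτ]
    congr 1
    exact AlgEquiv.apply_symm_apply τ x
  constructor
  · intro h
    have := ValuationSubring.smul_mem_pointwise_smul γ _ _ h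
    rwa [hγ, h1] at this
  · intro h
    rw [← h1, ← hγ] at h
    exact ValuationSubring.smul_mem_pointwise_smul_iff.1 h

end Pool.Agent.Helper54.PW
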