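import Pool.Agent.Helper54.PW.LocalA

set_option autoImplicit false
set_option linter.unusedSectionVars false
open scoped Pointwise

namespace Pool.Agent.Helper54.PW

/-- restriction of a homomorphism to a subgroup -/
def resW {p : ℕ} {P : Type} [Group P] (W : Subgroup P) (χ : Additive P →+ ZMod p) : Dl p W :=
  χ.comp (MonoidHom.toAdditive W.subtype)

theorem resW_apply {p : ℕ} {P : Type} [Group P] (W : Subgroup P) (χ : Additive P →+ ZMod p)
    (w : W) : resW W χ (Additive.ofMul w) = χ (Additive.ofMul (w : P)) := rfl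

theorem cj_resW {p : ℕ} {P : Type} [Group P] (W : Subgroup P) [W.Normal]
    (χ : Additive P →+ ZMod p) (g : P) : cj p g (resW W χ) = resW W χ := by
  refine AddMonoidHom.ext fun w => ?_
  obtain ⟨w, rfl⟩ := Additive.ofMul.surjective w
  rw [cj_apply, resW_apply, resW_apply, MulAut.conjNormal_apply, ofMul_mul, ofMul_mul, map_add,
    map_add, ofMul_inv, map_neg]
  abel

/-- the degree argument -/
theorem degree_contra {p : ℕ} [Fact p.Prime] {k : Type} [Field k] [CharP k p] {W : Type}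
    [Fintype W] (n : W → ℕ) (hn : Function.Injective n) (N : ℕ) (hnN : ∀ w, N < n w)
    (hn1 : ∀ w, 1 < n w) (hnp : ∀ w, ¬ p ∣ n w) (l : W → k) (hl : ∃ w, l w ≠ 0)
    (r u δ : RatFunc k) (hr : r = 0 ∨ r.intDegree ≤ N) (c : k) (hδ : δ = 0 ∨ δ.intDegree < 0)
    (h : r + ∑ w, RatFunc.C (l w) * RatFunc.X ^ n w + RatFunc.C c * RatFunc.X =
      u ^ p - u + δ) : False := by
  classical
  obtain ⟨w₀, hw₀, hmax⟩ : ∃ w₀ : W, l w₀ ≠ 0 ∧ ∀ w, l w ≠ 0 → n w ≤ n w₀ := by
    obtain ⟨w, hw⟩ := hl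
    obtain ⟨w₀, h1, h2⟩ := Finset.exists_max_image (Finset.univ.filter fun w => l w ≠ 0) n
      ⟨w, by simp [hw]⟩
    exact ⟨w₀, (Finset.mem_filter.1 h1).2, fun w' hw' => h2 w' (by simp [hw'])⟩
  have hX : (RatFunc.X : RatFunc k) ≠ 0 := RatFunc.X_ne_zero
  have hdeg : ∀ (d : k) (m : ℕ), (RatFunc.C d * RatFunc.X ^ m : RatFunc k) = 0 ∨
      (RatFunc.C d * RatFunc.X ^ m : RatFunc k).intDegree ≤ (m : ℤ) := by
    intro d m
    rcases eq_or_ne d 0 with rfl | hd
    · left; simp
    · right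
      rw [RatFunc.intDegree_mul (by simpa using hd) (pow_ne_zero _ hX), RatFunc.intDegree_C,
        intDegree_pow' hX, RatFunc.intDegree_X]
      simp
  have hlead : (RatFunc.C (l w₀) * RatFunc.X ^ n w₀ : RatFunc k).intDegree = (n w₀ : ℤ) := by
    rw [RatFunc.intDegree_mul (by simpa using hw₀) (pow_ne_zero _ hX), RatFunc.intDegree_C,
      intDegree_pow' hX, RatFunc.intDegree_X]
    simp
  have hle : (n w₀ : ℤ) - 1 ≥ N := by have := hnN w₀; omega
  have h1 : r = 0 ∨ r.intDegree ≤ (n w₀ : ℤ) - 1 := hr.imp_right fun h => by omega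
  have h2 : RatFunc.C c * RatFunc.X = 0 ∨ (RatFunc.C c * RatFunc.X).intDegree ≤ (n w₀ : ℤ) - 1 := by
    have := hdeg c 1
    rw [pow_one] at this
    refine this.imp_right fun h => ?_
    have := hn1 w₀
    push_cast at h
    omega
  have h3 : ∀ s : Finset W, (∀ w ∈ s, w ≠ w₀) →
      (∑ w ∈ s, RatFunc.C (l w) * RatFunc.X ^ n w : RatFunc k) = 0 ∨
      (∑ w ∈ s, RatFunc.C (l w) * RatFunc.X ^ n w : RatFunc k).intDegree ≤ (n w₀ : ℤ) - 1 := by
    intro s hs
    induction s using Finset.induction_on with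
    | empty => left; simp
    | insert w s hws ih =>
      rw [Finset.sum_insert hws]
      apply deg_add_le _ (ih fun w' hw' => hs w' (Finset.mem_insert_of_mem hw'))
      rcases eq_or_ne (l w) 0 with h0 | h0
      · left; simp [h0]
      · refine (hdeg (l w) (n w)).imp_right fun h => ?_
        have h4 := hmax w h0
        have h5 : n w ≠ n w₀ := fun h6 => hs w (Finset.mem_insert_self _ _) (hn h6)
        omega
  have h4 := h3 (Finset.univ.erase w₀) (fun w hw => (Finset.mem_erase.1 hw).1)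
  have h5 : r + ∑ w, RatFunc.C (l w) * RatFunc.X ^ n w + RatFunc.C c * RatFunc.X =
      RatFunc.C (l w₀) * RatFunc.X ^ n w₀ + ((r + ∑ w ∈ Finset.univ.erase w₀,
        RatFunc.C (l w) * RatFunc.X ^ n w) + RatFunc.C c * RatFunc.X) := by
    rw [← Finset.add_sum_erase Finset.univ _ (Finset.mem_univ w₀)]; ring
  have h6 := deg_add_le (deg_add_le h1 h4) h2
  have hne : RatFunc.C (l w₀) * RatFunc.X ^ n w₀ ≠ (0 : RatFunc k) :=
    mul_ne_zero (by simpa using hw₀) (pow_ne_zero _ hX)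
  have h7 := deg_add_eq hne (y := (r + ∑ w ∈ Finset.univ.erase w₀,
        RatFunc.C (l w) * RatFunc.X ^ n w) + RatFunc.C c * RatFunc.X) (by
      rw [hlead]; exact h6.imp_right fun h => by omega)
  rw [← h5, hlead] at h7
  have h8 := intDegree_wp _ _ _ h hδ
  rw [h7] at h8
  rcases h8 with h8 | h8
  · have := hn1 w₀; omega
  · exact hnp w₀ (by exact_mod_cast h8)

end Pool.Agent.Helper54.PW
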