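import Pool.Agent.Helper54.PW.LocalB

set_option autoImplicit false
set_option linter.unusedSectionVars false
open scoped Pointwise

namespace Pool.Agent.Helper54.PW

theorem mem_nonunits_comap' {L F : Type} [Field L] [Field F] (f : L →+* F)
    (B : ValuationSubring F) (x : L) : x ∈ (B.comap f).nonunits ↔ f x ∈ B.nonunits := by
  rw [ValuationSubring.mem_nonunits_iff_or, ValuationSubring.mem_nonunits_iff_or, map_eq_zero,
    ← map_inv₀]
  rfl

theorem local_lift {p : ℕ} [Fact p.Prime] {k L : Type} [Field k] [IsAlgClosed k] [CharP k p]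
    [Field L] [CharP L p] [Algebra k L] [Algebra (RatFunc k) L] [IsScalarTower k (RatFunc k) L]
    [FiniteDimensional (RatFunc k) L] [IsGalois (RatFunc k) L]
    {P : Type} [Group P] [Finite P] (hP : IsPGroup p P) {W : Subgroup P} [W.Normal]
    (hc : ∀ a b : W, a * b = b * a) (hp : ∀ a : W, a ^ p = 1)
    (act : P →* (L ≃ₐ[RatFunc k] L)) (hker : ∀ q, act q = 1 ↔ q ∈ W)
    (A : ValuationSubring L) (hA : IsPlace k A) (hX : tX k L ∉ A)
    (hst : ∀ σ : L ≃ₐ[RatFunc k] L, σ • A = A ↔ ∃ q, act q = σ) :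
    ∃ (β : P → TT p W L) (a : TT p W L) (α : k), α ≠ 0 ∧
      (∀ g h, β (g * h) = β g + st p g (act g : L →+* L) (β h)) ∧ (∀ w : W, β w = ev p L w) ∧
      (∀ q, (wp p L).comp (β q) = st p q (act q : L →+* L) a - a) ∧
      ∀ (F : Type) [Field F] [CharP F p] [Algebra k F] [Algebra (RatFunc k) F] [Algebra L F]
        [IsScalarTower k (RatFunc k) F] [IsScalarTower (RatFunc k) L F] [IsScalarTower k L F]
        [FiniteDimensional (RatFunc k) F] [IsGalois (RatFunc k) F]
        (B : ValuationSubring F) (_ : IsPlace k B) (_ : B.comap (algebraMap L F) = A)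
        (w : TT p W F) (_ : ∀ χ, wp p F (w χ) = algebraMap L F (a χ))
        (z : F) (_ : z ^ p - z = algebraMap k F α * tX k F),
        (∀ σ : F ≃ₐ[RatFunc k] F, σ • B = B → ∃ (g : P) (c : ZMod p),
          (∀ x : L, σ (algebraMap L F x) = algebraMap L F (act g x)) ∧
          st p g (σ : F →+* F) w = w + (algebraMap L F : L →+ F).comp (β g) ∧
          σ z = z + ZMod.castHom (dvd_refl p) F c) ∧
        (∀ (g : P) (c : ZMod p), ∃ σ : F ≃ₐ[RatFunc k] F, σ • B = B ∧
          (∀ x : L, σ (algebraMap L F x) = algebraMap L F (act g x)) ∧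
          st p g (σ : F →+* F) w = w + (algebraMap L F : L →+ F).comp (β g) ∧
          σ z = z + ZMod.castHom (dvd_refl p) F c) := by
  classical
  have : Fintype (P ⧸ W) := Fintype.ofFinite _
  have : Fintype W := Fintype.ofFinite _
  have : Finite (Additive P →+ ZMod p) :=
    Finite.of_injective (fun f : Additive P →+ ZMod p => (f : Additive P → ZMod p))
      DFunLike.coe_injective
  set act' : P → L →+* L := fun q => (act q : L →+* L) with hact'
  have hmul : ∀ g h x, act' (g * h) x = act' g (act' h x) := fun g h x => by simp [act', map_mul]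
  have hker' : ∀ q, (∀ x, act' q x = x) ↔ q ∈ W := by
    intro q
    rw [← hker]
    constructor
    · intro h; exact AlgEquiv.ext h
    · intro h x; simp [act', h]
  have hone : ∀ w ∈ W, ∀ x, act' w x = x := fun w hw => (hker' w).2 hw
  obtain ⟨b, hb⟩ := exists_sum_eq_one act' hmul hker'
  obtain ⟨β, hβ, hβW, -⟩ := exists_crossed (p := p) act' hmul hone b hb ⊤ (fun _ => trivial)
  obtain ⟨a₀, -, ha₀⟩ := crossed_coboundary act' hmul hone b hb
    (fun g => stHom p g (act' g))
    (fun g h m => by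
      simp only [stHom_apply]
      rw [← st_mul]
      congr 1
      exact RingHom.ext fun x => hmul g h x)
    (fun g x m => by simp only [stHom_apply]; exact st_smul g _ x m)
    (fun g => (wp p L).comp (β g))
    (fun g h => by
      simp only [stHom_apply]
      rw [hβ, AddMonoidHom.comp_add, wp_st])
    (fun w hw => by
      have := hβW ⟨w, hw⟩
      simp only at this
      rw [this, wp_ev])
    ⊤ (fun _ => trivial)
  have ha₀' : ∀ g, (wp p L).comp (β g) = st p g (act' g) a₀ - a₀ := ha₀
  -- the elements y_χ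
  have hy : ∀ χ : Additive P →+ ZMod p, ∃ y : L, ∀ g : P,
      β g (resW W χ) - ZMod.castHom (dvd_refl p) L (χ (Additive.ofMul g)) = act' g y - y := by
    intro χ
    obtain ⟨y, -, hy⟩ := crossed_coboundary act' hmul hone b hb (M := L)
      (fun g => (act' g : L →+ L)) (fun g h m => hmul g h m)
      (fun g x m => by simp)
      (fun g => β g (resW W χ) - ZMod.castHom (dvd_refl p) L (χ (Additive.ofMul g)))
      (fun g h => by
        rw [hβ, AddMonoidHom.add_apply, st_apply, cj_resW, ofMul_mul, map_add, map_add]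
        simp only [AddMonoidHom.coe_coe, map_sub, castHom_map]
        ring)
      (fun w hw => by
        have h1 : β w = ev p L (⟨w, hw⟩ : W) := hβW ⟨w, hw⟩
        rw [h1, ev_apply, resW_apply, sub_self])
      ⊤ (fun _ => trivial)
    exact ⟨y, hy⟩
  choose y hy using hy
  have hFFL : FF k L := ff_of_algebraic k L
  have hr : ∀ χ : Additive P →+ ZMod p, ∃ r : RatFunc k,
      a₀ (resW W χ) - wp p L (y χ) - algebraMap (RatFunc k) L r ∈ A.nonunits := by
    intro χ
    apply density_F hFFL A hA
    intro σ hσ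
    obtain ⟨q, rfl⟩ := (hst σ).1 hσ
    have h1 := DFunLike.congr_fun (ha₀' q) (resW W χ)
    rw [AddMonoidHom.comp_apply, AddMonoidHom.sub_apply, st_apply, cj_resW] at h1
    have h2 : wp p L (β q (resW W χ)) = act' q (wp p L (y χ)) - wp p L (y χ) := by
      have h3 : β q (resW W χ) = ZMod.castHom (dvd_refl p) L (χ (Additive.ofMul q)) +
          (act' q (y χ) - y χ) := by rw [← hy χ q]; ring
      rw [h3, map_add, wp_castHom, zero_add, map_sub, wp_map]
    have h4 : (act q) (a₀ (resW W χ) - wp p L (y χ)) =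
        act' q (a₀ (resW W χ)) - act' q (wp p L (y χ)) := map_sub (act' q) _ _
    rw [h4]
    rw [h2] at h1
    linear_combination -h1
  choose r hr using hr
  -- the exponents
  obtain ⟨N, hN⟩ : ∃ N : ℕ, ∀ χ, (r χ).intDegree ≤ N := by
    have : Fintype (Additive P →+ ZMod p) := Fintype.ofFinite _
    refine ⟨∑ χ, (r χ).intDegree.toNat, fun χ => ?_⟩
    have h1 : (r χ).intDegree.toNat ≤ ∑ χ, (r χ).intDegree.toNat :=
      Finset.single_le_sum (f := fun χ => (r χ).intDegree.toNat) (fun _ _ => Nat.zero_le _)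
        (Finset.mem_univ χ)
    have h2 := Int.self_le_toNat (r χ).intDegree
    exact h2.trans (by exact_mod_cast h1)
  have hp1 : 1 < p := (Fact.out : p.Prime).one_lt
  let n : W → ℕ := fun w => p * (N + 1 + (Fintype.equivFin W w : ℕ)) + 1
  have hninj : Function.Injective n := by
    intro w w' h
    simp only [n, add_left_inj] at h
    have h1 := Nat.eq_of_mul_eq_mul_left (by omega) h
    have h2 : (Fintype.equivFin W w : ℕ) = Fintype.equivFin W w' := by omega
    exact (Fintype.equivFin W).injective (Fin.ext h2)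
  have hnN : ∀ w, N < n w := by
    intro w
    simp only [n]
    have : 1 * (N + 1 + (Fintype.equivFin W w : ℕ)) ≤ p * (N + 1 + (Fintype.equivFin W w : ℕ)) :=
      Nat.mul_le_mul_right _ (by omega)
    omega
  have hn1 : ∀ w, 1 < n w := by
    intro w
    simp only [n]
    have : 1 * (N + 1 + (Fintype.equivFin W w : ℕ)) ≤ p * (N + 1 + (Fintype.equivFin W w : ℕ)) :=
      Nat.mul_le_mul_right _ (by omega)
    omega
  have hnp : ∀ w, ¬ p ∣ n w := by
    intro w h
    simp only [n] at h
    rw [Nat.dvd_add_right (Dvd.intro _ rfl)] at h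
    have := Nat.le_of_dvd one_pos h
    omega
  have htfix : ∀ (g : P) (f : RatFunc k), act' g (algebraMap (RatFunc k) L f) =
      algebraMap (RatFunc k) L f := fun g f => (act g).commutes f
  let m' : TT p W L := ∑ w : W, ∑ h : P ⧸ W, st p h.out (act' h.out)
    ((b * (tX k L) ^ n w) • ev p L w)
  have hm' : ∀ g, st p g (act' g) m' = m' := by
    intro g
    have h1 : st p g (act' g) m' = ∑ w : W, st p g (act' g) (∑ h : P ⧸ W,
        st p h.out (act' h.out) ((b * (tX k L) ^ n w) • ev p L w)) :=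
      map_sum (stHom p g (act' g)) _ _
    rw [h1]
    exact Finset.sum_congr rfl fun w _ => trace_inv hc act' hmul hone _ g
  have hm'v : ∀ χ : Additive P →+ ZMod p, m' (resW W χ) = algebraMap (RatFunc k) L
      (∑ w : W, RatFunc.C (ZMod.castHom (dvd_refl p) k (χ (Additive.ofMul (w : P)))) *
        RatFunc.X ^ n w) := by
    intro χ
    have h1 : m' (resW W χ) = ∑ w : W, (∑ h : P ⧸ W,
        st p h.out (act' h.out) ((b * (tX k L) ^ n w) • ev p L w)) (resW W χ) :=
      map_sum (AddMonoidHom.eval (resW W χ)) _ _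
    rw [h1, map_sum]
    refine Finset.sum_congr rfl fun w _ => ?_
    rw [trace_apply_inv act' b hb _ (fun g => by
      rw [map_pow, tX, htfix]) w _ (cj_resW W χ), map_mul, map_pow, resW_apply, tX]
    congr 1
    have h2 : algebraMap (RatFunc k) L (RatFunc.C (ZMod.castHom (dvd_refl p) k
        (χ (Additive.ofMul (w : P))))) = algebraMap k L (ZMod.castHom (dvd_refl p) k
        (χ (Additive.ofMul (w : P)))) := by
      rw [IsScalarTower.algebraMap_apply k (RatFunc k) L]; rfl
    rw [h2, castHom_map (algebraMap k L)]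
  -- the choice of α
  let Bad : (Additive P →+ ZMod p) → ZMod p → Set k := fun χ c => {α : k | c ≠ 0 ∧
    ∃ u δ : RatFunc k, (δ = 0 ∨ δ.intDegree < 0) ∧
      r χ + RatFunc.C (ZMod.castHom (dvd_refl p) k c * α) * RatFunc.X = u ^ p - u + δ}
  have hBad : ∀ χ c, (Bad χ c).Subsingleton := by
    rintro χ c α₁ ⟨hc1, u₁, δ₁, hδ₁, h₁⟩ α₂ ⟨-, u₂, δ₂, hδ₂, h₂⟩
    by_contra hne
    have h3 : RatFunc.C (ZMod.castHom (dvd_refl p) k c * (α₁ - α₂)) * RatFunc.X =
        (u₁ - u₂) ^ p - (u₁ - u₂) + (δ₁ - δ₂) := by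
      have : CharP (RatFunc k) p := charP_of_injective_algebraMap
        (algebraMap k (RatFunc k)).injective p
      rw [sub_pow_expChar, mul_sub, map_sub, sub_mul]
      linear_combination h₁ - h₂
    have hδ : δ₁ - δ₂ = 0 ∨ (δ₁ - δ₂).intDegree < 0 := by
      have h4 : δ₁ = 0 ∨ δ₁.intDegree ≤ -1 := hδ₁.imp_right fun h => by omega
      have h5 : -δ₂ = 0 ∨ (-δ₂).intDegree ≤ -1 := by
        rw [neg_eq_zero, RatFunc.intDegree_neg]
        exact hδ₂.imp_right fun h => by omega
      rw [sub_eq_add_neg]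
      exact (deg_add_le h4 h5).imp_right fun h => by omega
    have h6 := intDegree_wp _ _ _ h3 hδ
    have h7 : ZMod.castHom (dvd_refl p) k c * (α₁ - α₂) ≠ 0 := by
      apply mul_ne_zero
      · intro h
        exact hc1 ((ZMod.castHom (dvd_refl p) k).injective (by rw [h, map_zero]))
      · exact sub_ne_zero.2 hne
    rw [RatFunc.intDegree_mul ((map_ne_zero RatFunc.C).2 h7) RatFunc.X_ne_zero, RatFunc.intDegree_C,
      RatFunc.intDegree_X] at h6
    rcases h6 with h6 | h6
    · omega
    · have h8 : (p : ℤ) ∣ 1 := by simpa using h6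
      have h9 := Int.le_of_dvd one_pos h8
      omega
  obtain ⟨α, hα0, hαgood⟩ : ∃ α : k, α ≠ 0 ∧ ∀ χ c, α ∉ Bad χ c := by
    have hfin : (({0} : Set k) ∪ ⋃ χ, ⋃ c, Bad χ c).Finite := by
      refine (Set.finite_singleton _).union ?_
      exact Set.finite_iUnion fun χ => Set.finite_iUnion fun c => (hBad χ c).finite
    obtain ⟨α, hα⟩ := hfin.exists_notMem
    refine ⟨α, fun h => hα (Or.inl h), fun χ c h => hα (Or.inr ?_)⟩
    exact Set.mem_iUnion.2 ⟨χ, Set.mem_iUnion.2 ⟨c, h⟩⟩
  refine ⟨β, a₀ + m', α, hα0, hβ, hβW, ?_, ?_⟩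
  · intro q
    have := ha₀' q
    rw [this]
    show st p q (act' q) a₀ - a₀ = st p q (act' q) (a₀ + m') - (a₀ + m')
    rw [st_add, hm']; abel
  intro F _ _ _ _ _ _ _ _ _ _ B hB hBA w hw z hz
  set i : L →+* F := algebraMap L F with hi
  have hFF : FF k F := ff_of_algebraic k F
  have hLB : ∀ x : L, x ∈ A.nonunits ↔ i x ∈ B.nonunits := by
    intro x
    rw [← hBA]
    exact mem_nonunits_comap' _ _ _
  have hKF : ∀ f : RatFunc k, i (algebraMap (RatFunc k) L f) = algebraMap (RatFunc k) F f :=
    fun f => (IsScalarTower.algebraMap_apply (RatFunc k) L F f).symm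
  have hkF : ∀ c : k, i (algebraMap k L c) = algebraMap k F c := fun c =>
    (IsScalarTower.algebraMap_apply k L F c).symm
  have hXB : tX k F ∉ B := by
    intro h
    apply hX
    rw [← hBA]
    show algebraMap L F (tX k L) ∈ B
    rw [tX, hKF]; exact h
  have hkK : ∀ c : k, algebraMap k F c = algebraMap (RatFunc k) F (RatFunc.C c) := by
    intro c
    rw [IsScalarTower.algebraMap_apply k (RatFunc k) F]; rfl
  -- the decomposition group
  let D : Subgroup (F ≃ₐ[RatFunc k] F) := MulAction.stabilizer (F ≃ₐ[RatFunc k] F) B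
  have hDB : ∀ γ : D, (γ : F ≃ₐ[RatFunc k] F) • B = B := fun γ => γ.2
  have hresL : ∀ γ : F ≃ₐ[RatFunc k] F, ∀ x : L, γ (i x) = i (AlgEquiv.restrictNormalHom L γ x) :=
    fun γ x => (AlgEquiv.restrictNormal_commutes γ L x).symm
  obtain ⟨ρ, hρL, hρw, -⟩ := sol_hom (p := p) (Q := P) (W := W) hc hp i act' hmul hker'
    (fun σ : D => ((σ : F ≃ₐ[RatFunc k] F) : F →+* F)) (fun γ δ x => rfl) (by
      intro γ
      have h1 : (AlgEquiv.restrictNormalHom L (γ : F ≃ₐ[RatFunc k] F)) • A = A := by
        rw [← hBA]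
        exact restrict_stab B _ (hDB γ) _ (hresL γ)
      obtain ⟨q, hq⟩ := (hst _).1 h1
      refine ⟨q, fun x => ?_⟩
      show (γ : F ≃ₐ[RatFunc k] F) (i x) = i (act q x)
      rw [hq]; exact hresL γ x)
    β hβ hβW (a₀ + m') (by
      intro q
      rw [ha₀' q, st_add, hm']; abel) w hw
  -- the character of z
  have hzc : ∀ σ : F ≃ₐ[RatFunc k] F, ∃ c : ZMod p, σ z = z + ZMod.castHom (dvd_refl p) F c := by
    intro σ
    have h1 : (σ z - z) ^ p = σ z - z := by
      have h2 : σ (z ^ p - z) = z ^ p - z := by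
        rw [hz, map_mul, tX, hkK, AlgEquiv.commutes, AlgEquiv.commutes]
      rw [sub_pow_expChar]
      rw [map_sub, map_pow] at h2
      linear_combination h2
    obtain ⟨u, hu⟩ : ∃ u : ZMod p, ZMod.castHom (dvd_refl p) F u = σ z - z := by
      have hmem : σ z - z ∈ (ZMod.castHom (dvd_refl p) F).fieldRange := by
        rw [ZMod.fieldRange_castHom_eq_bot]
        exact (Subfield.mem_bot_iff_pow_eq_self F p).2 h1
      exact hmem
    exact ⟨u, by rw [hu]; ring⟩
  choose cz hcz using hzc
  have hczmul : ∀ σ τ : F ≃ₐ[RatFunc k] F, cz (σ * τ) = cz σ + cz τ := by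
    intro σ τ
    apply (ZMod.castHom (dvd_refl p) F).injective
    have h1 := hcz (σ * τ)
    rw [AlgEquiv.mul_apply, hcz τ, map_add, hcz σ] at h1
    have h2 : σ (ZMod.castHom (dvd_refl p) F (cz τ)) = ZMod.castHom (dvd_refl p) F (cz τ) :=
      castHom_map (σ : F →+* F) _
    rw [h2] at h1
    rw [map_add]
    linear_combination -h1
  let χz : D →* Multiplicative (ZMod p) :=
    { toFun := fun γ => Multiplicative.ofAdd (cz γ)
      map_one' := by
        have h := hczmul 1 1
        rw [mul_one] at h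
        have h1 : cz (1 : F ≃ₐ[RatFunc k] F) = 0 := by simpa using h
        show Multiplicative.ofAdd (cz ((1 : D) : F ≃ₐ[RatFunc k] F)) = 1
        rw [Subgroup.coe_one, h1]; rfl
      map_mul' := fun γ δ => by
        show Multiplicative.ofAdd (cz ((γ * δ : D) : F ≃ₐ[RatFunc k] F)) = _
        rw [Subgroup.coe_mul, hczmul]; rfl }
  have hJ : (ρ.prod χz).range = ⊤ := by
    by_contra hne
    obtain ⟨χ, c, hχc, hJ⟩ := exists_hom_of_ne_top hP _ hne
    have hvan : ∀ γ : D, χ (Additive.ofMul (ρ γ)) + c * cz γ = 0 := fun γ =>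
      hJ _ ⟨γ, rfl⟩
    set lam := resW W χ with hlam
    let u : F := w lam - i (y χ) + ZMod.castHom (dvd_refl p) F c * z
    have hu : ∀ σ : F ≃ₐ[RatFunc k] F, σ • B = B → σ u = u := by
      intro σ hσ
      let γ : D := ⟨σ, hσ⟩
      have h1 := DFunLike.congr_fun (hρw γ) lam
      rw [st_apply, cj_resW, AddMonoidHom.add_apply, AddMonoidHom.comp_apply] at h1
      have h1' : σ (w lam) = w lam + i (β (ρ γ) lam) := h1
      have h2 : σ (i (y χ)) = i (act' (ρ γ) (y χ)) := hρL γ (y χ)
      have h3 := hy χ (ρ γ)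
      have h4 : i (β (ρ γ) lam) = ZMod.castHom (dvd_refl p) F (χ (Additive.ofMul (ρ γ))) +
          (i (act' (ρ γ) (y χ)) - i (y χ)) := by
        rw [← castHom_map i, ← map_sub, ← h3, ← map_add]
        congr 1; ring
      have h5 : σ (ZMod.castHom (dvd_refl p) F c) = ZMod.castHom (dvd_refl p) F c :=
        castHom_map (σ : F →+* F) _
      have h6 := congrArg (ZMod.castHom (dvd_refl p) F) (hvan γ)
      rw [map_add, map_mul, map_zero] at h6
      simp only [u, map_add, map_sub, map_mul, h1', h2, h4, h5, hcz σ]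
      have h7 : cz σ = cz (γ : F ≃ₐ[RatFunc k] F) := rfl
      rw [h7]
      linear_combination h6
    obtain ⟨u₀, hu₀⟩ := density_F (M := RatFunc k) hFF B hB u hu
    -- apply wp
    have hwpu : wp p F u = i (a₀ lam + m' lam) - i (wp p L (y χ)) +
        ZMod.castHom (dvd_refl p) F c * (algebraMap k F α * tX k F) := by
      simp only [u]
      rw [map_add, map_sub, hw, wp_castHom_mul, wp_map, wp_apply z, hz, AddMonoidHom.add_apply]
    have hsmall : wp p F (u - algebraMap (RatFunc k) F u₀) ∈ B.nonunits := by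
      rw [wp_apply]
      refine sub_mem ?_ hu₀
      have : (u - algebraMap (RatFunc k) F u₀) ^ p =
          (u - algebraMap (RatFunc k) F u₀) ^ (p - 1) * (u - algebraMap (RatFunc k) F u₀) := by
        rw [← pow_succ]; congr 1; omega
      rw [this]
      rw [ValuationSubring.mem_nonunits_iff] at hu₀ ⊢
      rw [map_mul, map_pow]
      exact lt_of_le_of_lt (mul_le_of_le_one_left' (pow_le_one' hu₀.le _)) hu₀
    set Mχ : RatFunc k := ∑ w : W, RatFunc.C (ZMod.castHom (dvd_refl p) k
      (χ (Additive.ofMul (w : P)))) * RatFunc.X ^ n w with hMχ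
    let δ : RatFunc k := r χ + Mχ + RatFunc.C (ZMod.castHom (dvd_refl p) k c * α) * RatFunc.X
      - (u₀ ^ p - u₀)
    have hδ : algebraMap (RatFunc k) F δ ∈ B.nonunits := by
      have h1 : algebraMap (RatFunc k) F δ = wp p F (u - algebraMap (RatFunc k) F u₀) -
          i (a₀ lam - wp p L (y χ) - algebraMap (RatFunc k) L (r χ)) := by
        have h2 : i (m' lam) = algebraMap (RatFunc k) F Mχ := by
          rw [hlam, hm'v χ, hKF]
        have h3 : algebraMap (RatFunc k) F (RatFunc.C (ZMod.castHom (dvd_refl p) k c * α) *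
            RatFunc.X) = ZMod.castHom (dvd_refl p) F c * (algebraMap k F α * tX k F) := by
          rw [map_mul, ← hkK, map_mul, castHom_map (algebraMap k F), tX]; ring
        simp only [δ]
        rw [map_sub, map_add, map_add, h3, map_sub (wp p F), hwpu, map_add, h2, map_sub i,
          map_sub i, hKF, wp_apply (algebraMap (RatFunc k) F u₀), map_sub, map_pow]
        ring
      rw [h1]
      exact sub_mem hsmall ((hLB _).1 (hr χ))
    have hδ' : δ = 0 ∨ δ.intDegree < 0 :=
      (mem_place_iff B hB.2 hXB δ).2.1 hδ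
    have heq : r χ + Mχ + RatFunc.C (ZMod.castHom (dvd_refl p) k c * α) * RatFunc.X =
        u₀ ^ p - u₀ + δ := by simp only [δ]; ring
    by_cases hl : ∃ v : W, χ (Additive.ofMul (v : P)) ≠ 0
    · refine degree_contra n hninj N hnN hn1 hnp
        (fun v => ZMod.castHom (dvd_refl p) k (χ (Additive.ofMul (v : P)))) ?_ (r χ) u₀ δ
        (Or.inr (hN χ)) _ hδ' heq
      obtain ⟨v, hv⟩ := hl
      refine ⟨v, fun h => hv ?_⟩
      exact (ZMod.castHom (dvd_refl p) k).injective (by rw [h, map_zero])
    · push Not at hl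
      have hM0 : Mχ = 0 := by
        rw [hMχ]
        exact Finset.sum_eq_zero fun v _ => by rw [hl v, map_zero, map_zero, zero_mul]
      rw [hM0, add_zero] at heq
      by_cases hc0 : c = 0
      · -- χ is trivial on W and vanishes on the image of D
        have hχ0 : χ = 0 := by
          refine AddMonoidHom.ext fun g => ?_
          obtain ⟨g, rfl⟩ := Additive.ofMul.surjective g
          have h1 : act g • A = A := (hst _).2 ⟨g, rfl⟩
          rw [← hBA] at h1
          obtain ⟨γ, hγB, hγL⟩ := lift_stab' (k := k) (K := RatFunc k) hFF B hB (act g) h1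
          let γ' : D := ⟨γ, hγB⟩
          have h2 := hvan γ'
          rw [hc0, zero_mul, add_zero] at h2
          have h3 : (ρ γ')⁻¹ * g ∈ W := by
            rw [← hker, map_mul, map_inv, inv_mul_eq_one]
            refine AlgEquiv.ext fun x => i.injective ?_
            have h4 : γ (i x) = i (act (ρ γ') x) := hρL γ' x
            rw [← h4]; exact hγL x
          have h5 := hl ⟨_, h3⟩
          simp only [ofMul_mul, ofMul_inv, map_add, map_neg] at h5
          rw [h2, neg_zero, zero_add] at h5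
          simpa using h5
        rcases hχc with h | h
        · exact h hχ0
        · exact h hc0
      · exact hαgood χ c ⟨hc0, u₀, δ, hδ', heq⟩
  constructor
  · intro σ hσ
    let γ : D := ⟨σ, hσ⟩
    exact ⟨ρ γ, cz σ, hρL γ, hρw γ, hcz σ⟩
  · intro g c
    have h1 : (g, Multiplicative.ofAdd c) ∈ (ρ.prod χz).range := by rw [hJ]; trivial
    obtain ⟨γ, hγ⟩ := h1
    have h2 : ρ γ = g := congrArg Prod.fst hγ
    have h3 : Multiplicative.ofAdd (cz γ) = Multiplicative.ofAdd c := congrArg Prod.snd hγ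
    have h4 : cz γ = c := h3
    refine ⟨γ, γ.2, ?_, ?_, ?_⟩
    · rw [← h2]; exact hρL γ
    · rw [← h2]; exact hρw γ
    · rw [← h4]; exact hcz γ

end Pool.Agent.Helper54.PW
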