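import Pool.Agent.Helper54.PW.LocalC
import Pool.Agent.Helper79.PW.TraceOne
import Pool.Agent.Helper73.PW.Global

set_option autoImplicit false
set_option linter.unusedSectionVars false
open scoped Pointwise

namespace Pool.Agent.Helper54.PW

section levelL

variable {p : ℕ} [Fact p.Prime] {k L : Type} [Field k] [IsAlgClosed k] [CharP k p]
  [Field L] [CharP L p] [Algebra k L] [Algebra (RatFunc k) L] [IsScalarTower k (RatFunc k) L]
  [FiniteDimensional (RatFunc k) L] [IsGalois (RatFunc k) L]
  {G : Type} [Group G] [Finite G] (V : Subgroup G) [V.Normal]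
  (act : G →* (L ≃ₐ[RatFunc k] L))

theorem actmul (g h : G) (x : L) :
    (act (g * h) : L →+* L) x = (act g : L →+* L) ((act h : L →+* L) x) := by
  simp [map_mul]

/-- global crossed homomorphism and its Artin-Schreier datum -/
theorem global_data (hact : Function.Surjective act) (hker : ∀ g, act g = 1 ↔ g ∈ V)
    (hunr : ∀ A : ValuationSubring L, A ≠ ⊤ →
      (∀ c : k, algebraMap (RatFunc k) L (algebraMap k (RatFunc k) c) ∈ A) → tX k L ∈ A →
      ∀ σ : L ≃ₐ[RatFunc k] L, σ • A = A → σ = 1) :
    ∃ (β : G → TT p V L) (a : TT p V L),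
      (∀ g h, β (g * h) = β g + st p g (act g : L →+* L) (β h)) ∧ (∀ w : V, β w = ev p L w) ∧
      (∀ g, (wp p L).comp (β g) = st p g (act g : L →+* L) a - a) ∧
      ∀ χ, (pk k L).IsIntegralElem (a χ) := by
  classical
  obtain ⟨b, hbint, htr⟩ := exists_trace_one hunr
  have : Fintype (G ⧸ V) := Fintype.ofFinite _
  have hkerV : act.ker = V := by
    ext g; rw [MonoidHom.mem_ker]; exact hker g
  have hone : ∀ w ∈ V, ∀ x : L, (act w : L →+* L) x = x := by
    intro w hw x
    rw [(hker w).2 hw]; rfl
  have hb : ∑ h : G ⧸ V, (act h.out : L →+* L) b = 1 := by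
    have h1 := trace_eq_sum_automorphisms (K := RatFunc k) (x := b)
    rw [htr, map_one] at h1
    rw [h1]
    refine Fintype.sum_bijective (fun h : G ⧸ V => act h.out) ⟨?_, ?_⟩ _ _ (fun h => rfl)
    · intro x y hxy
      have : act (x.out⁻¹ * y.out) = 1 := by
        rw [map_mul, map_inv]
        simp only at hxy
        rw [hxy]; group
      rw [hker] at this
      have h2 := (QuotientGroup.eq (s := V)).2 this
      simpa using h2
    · intro σ
      obtain ⟨g, rfl⟩ := hact σ
      refine ⟨(g : G ⧸ V), ?_⟩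
      have : g⁻¹ * (Quotient.out (g : G ⧸ V)) ∈ V := by
        rw [← QuotientGroup.eq]; simp
      rw [← hker, map_mul, map_inv, inv_mul_eq_one] at this
      exact this.symm
  obtain ⟨β, hβ, hβV, hβint⟩ := exists_crossed (p := p) (W := V) (fun g => (act g : L →+* L))
    (fun g h x => actmul act g h x) hone b hb (intSub k L) (fun q => intSub_map hbint (act q))
  let S : AddSubgroup (TT p V L) :=
    { carrier := {f | ∀ χ, f χ ∈ intSub k L}
      add_mem' := fun {f g} hf hg χ => (intSub k L).add_mem (hf χ) (hg χ)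
      zero_mem' := fun χ => (intSub k L).zero_mem
      neg_mem' := fun {f} hf χ => (intSub k L).neg_mem (hf χ) }
  obtain ⟨a, haS, ha⟩ := crossed_coboundary (W := V) (fun g => (act g : L →+* L))
    (fun g h x => actmul act g h x) hone b hb
    (fun g => stHom p g (act g : L →+* L))
    (fun g h m => by
      simp only [stHom_apply]
      rw [← st_mul]
      congr 1
      exact RingHom.ext fun x => actmul act g h x)
    (fun g x m => by simp only [stHom_apply]; exact st_smul g _ x m)
    (fun g => (wp p L).comp (β g))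
    (fun g h => by
      simp only [stHom_apply]
      rw [hβ, AddMonoidHom.comp_add, wp_st])
    (fun w hw => by
      have := hβV ⟨w, hw⟩
      simp only at this
      rw [this, wp_ev])
    S
    (fun g χ => by
      have h1 : (act g : L →+* L) b ∈ intSub k L := intSub_map hbint (act g)
      have h2 : wp p L (β g χ) ∈ intSub k L := by
        rw [wp_apply]
        exact (intSub k L).sub_mem ((intSub k L).pow_mem (hβint g χ) p) (hβint g χ)
      exact (intSub k L).mul_mem h1 h2)
  exact ⟨β, a, hβ, hβV, ha, haS⟩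

/-- the property of the local lift at the level of finite extensions -/
def LocalProp (p : ℕ) [Fact p.Prime] {k L : Type} [Field k] [Field L] [CharP L p] [Algebra k L]
    [Algebra (RatFunc k) L] {P : Type} [Group P] {W : Subgroup P} [W.Normal]
    (act : P →* (L ≃ₐ[RatFunc k] L)) (A : ValuationSubring L)
    (β : P → TT p W L) (a : TT p W L) (α : k) : Prop :=
  ∀ (F : Type) [Field F] [CharP F p] [Algebra k F] [Algebra (RatFunc k) F] [Algebra L F]
    [IsScalarTower k (RatFunc k) F] [IsScalarTower (RatFunc k) L F] [IsScalarTower k L F]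
    [FiniteDimensional (RatFunc k) F] [IsGalois (RatFunc k) F]
    (B : ValuationSubring F) (_ : IsPlace k B) (_ : B.comap (algebraMap L F) = A)
    (w : TT p W F) (_ : ∀ χ, wp p F (w χ) = algebraMap L F (a χ))
    (z : F) (_ : z ^ p - z = algebraMap k F α * tX k F),
    (∀ σ : F ≃ₐ[RatFunc k] F, σ • B = B → ∃ (g : P) (c : ZMod p),
      (∀ x : L, σ (algebraMap L F x) = algebraMap L F (act g x)) ∧
      st p g (σ : F →+* F) w = w + (algebraMap L F : L →+ F).comp (β g) ∧
      σ z = z + ZMod.castHom (dvd_refl p) F c) ∧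
    (∀ (g : P) (c : ZMod p), ∃ σ : F ≃ₐ[RatFunc k] F, σ • B = B ∧
      (∀ x : L, σ (algebraMap L F x) = algebraMap L F (act g x)) ∧
      st p g (σ : F →+* F) w = w + (algebraMap L F : L →+ F).comp (β g) ∧
      σ z = z + ZMod.castHom (dvd_refl p) F c)

theorem level_L (hVc : ∀ a b : V, a * b = b * a) (hVp : ∀ a : V, a ^ p = 1) (hVne : V ≠ ⊥)
    (P : Subgroup G) (hP : IsPGroup p P)
    (hact : Function.Surjective act) (hker : ∀ g, act g = 1 ↔ g ∈ V)
    (hunr : ∀ A : ValuationSubring L, A ≠ ⊤ →
      (∀ c : k, algebraMap (RatFunc k) L (algebraMap k (RatFunc k) c) ∈ A) → tX k L ∈ A →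
      ∀ σ : L ≃ₐ[RatFunc k] L, σ • A = A → σ = 1)
    (A : ValuationSubring L) (hA : IsPlace k A) (hX : tX k L ∉ A)
    (hst : ∀ σ : L ≃ₐ[RatFunc k] L, σ • A = A ↔ ∃ g ∈ P, act g = σ) :
    ∃ (β : G → TT p V L) (a₀ : TT p V L) (β' : P → TT p (V.subgroupOf P) L)
      (a' : TT p (V.subgroupOf P) L) (α : k) (v : V) (e n δ : TT p V L),
      (∀ g h, β (g * h) = β g + st p g (act g : L →+* L) (β h)) ∧ (∀ w : V, β w = ev p L w) ∧
      (∀ g, (wp p L).comp (β g) = st p g (act g : L →+* L) a₀ - a₀) ∧
      (∀ χ, (pk k L).IsIntegralElem (a₀ χ)) ∧ α ≠ 0 ∧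
      LocalProp p (act.comp P.subtype) A β' a' α ∧
      v ≠ 1 ∧ (∀ g ∈ P, MulAut.conjNormal g v = v) ∧
      (∀ g : P, β g - jj p V P (β' g) = st p (g : G) (act g : L →+* L) e - e) ∧
      (∀ g ∈ P, st p g (act g : L →+* L) n = n) ∧
      (∀ g ∈ P, st p g (act g : L →+* L) δ = δ) ∧ (∀ χ, δ χ ∈ A.nonunits) ∧
      a₀ = jj p V P a' + (wp p L).comp e + (algebraMap k L α * tX k L) • ev p L v
        - (wp p L).comp n - δ := by
  classical
  have hVpg : IsPGroup p V := fun a => ⟨1, by rw [pow_one]; exact hVp a⟩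
  obtain ⟨β, a, hβ, hβV, ha, haint⟩ := global_data (p := p) V act hact hker hunr
  obtain ⟨v, hv1, hvP⟩ := exists_fixed_conj V hVpg hVne P hP
  -- the local lift
  have hkerP : ∀ q : P, (act.comp P.subtype) q = 1 ↔ q ∈ V.subgroupOf P := by
    intro q
    rw [Subgroup.mem_subgroupOf, ← hker]; rfl
  have hcP : ∀ a b : V.subgroupOf P, a * b = b * a := by
    intro a b
    have := congrArg Subtype.val (hVc (incl V P a) (incl V P b))
    exact Subtype.ext (Subtype.ext this)
  have hpP : ∀ a : V.subgroupOf P, a ^ p = 1 := by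
    intro a
    have := congrArg Subtype.val (hVp (incl V P a))
    refine Subtype.ext (Subtype.ext ?_)
    rw [Subgroup.coe_pow, Subgroup.coe_one] at this
    rw [Subgroup.coe_pow, Subgroup.coe_pow, Subgroup.coe_one, Subgroup.coe_one]
    exact this
  obtain ⟨β', a', α, hα, hβ', hβ'W, ha', hloc⟩ := local_lift (p := p) hP hcP hpP
    (act.comp P.subtype) hkerP A hA hX (by
      intro σ
      rw [hst]
      constructor
      · rintro ⟨g, hg, rfl⟩; exact ⟨⟨g, hg⟩, rfl⟩
      · rintro ⟨g, rfl⟩; exact ⟨g, g.2, rfl⟩)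
  -- comparison of the crossed homomorphisms on P
  have : Fintype (P ⧸ V.subgroupOf P) := Fintype.ofFinite _
  obtain ⟨b₁, hb₁⟩ := exists_sum_eq_one (W := V.subgroupOf P)
    (fun g : P => (act g : L →+* L)) (fun g h x => actmul act g h x) (by
      intro q
      rw [← hkerP]
      constructor
      · intro h; exact AlgEquiv.ext h
      · intro h x
        have : act (q : G) = 1 := h
        simp [this])
  obtain ⟨e, -, he⟩ := crossed_coboundary (W := V.subgroupOf P)
    (fun g : P => (act g : L →+* L)) (fun g h x => actmul act g h x)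
    (by
      intro w hw x
      have : act (w : G) = 1 := (hkerP w).2 hw
      simp [this]) b₁ hb₁
    (fun g => stHom p (g : G) (act g : L →+* L))
    (fun g h m => by
      simp only [stHom_apply]
      rw [← st_mul]
      congr 1
      exact RingHom.ext fun x => actmul act g h x)
    (fun g x m => by simp only [stHom_apply]; exact st_smul (g : G) _ x m)
    (fun g : P => β g - jj p V P (β' g))
    (fun g h => by
      simp only [stHom_apply]
      rw [Subgroup.coe_mul, hβ, hβ', jj_add, st_sub]
      have : jj p V P (st p g ((act.comp P.subtype) g : L →+* L) (β' h))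
          = st p (g : G) (act (g : G) : L →+* L) (jj p V P (β' h)) := jj_st P g _ _
      rw [this]; abel)
    (fun w hw => by
      have h1 := hβV (incl V P ⟨w, hw⟩)
      have h2 := hβ'W ⟨w, hw⟩
      have h3 : β (w : G) = ev p L (incl V P ⟨w, hw⟩) := h1
      have h4 : β' w = ev p L (⟨w, hw⟩ : V.subgroupOf P) := h2
      rw [h3, h4, jj_ev, sub_self])
    ⊤ (fun _ => trivial)
  have he' : ∀ g : P, β g - jj p V P (β' g) = st p (g : G) (act g : L →+* L) e - e := he
  -- the element to be approximated
  let y : TT p V L := jj p V P a' + (wp p L).comp e + (algebraMap k L α * tX k L) • ev p L v - a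
  have hyP : ∀ g ∈ P, st p g (act g : L →+* L) y = y := by
    intro g hg
    have h1 := ha g
    have h2 : jj p V P ((wp p L).comp (β' ⟨g, hg⟩)) = st p g (act g : L →+* L) (jj p V P a')
        - jj p V P a' := by
      rw [ha' ⟨g, hg⟩, jj_sub]
      congr 1
    have h3 := congrArg (fun f => (wp p L).comp f) (he' ⟨g, hg⟩)
    simp only [AddMonoidHom.comp_sub, wp_st] at h3
    have h4 : st p g (act g : L →+* L) ((algebraMap k L α * tX k L) • ev p L v)
        = (algebraMap k L α * tX k L) • ev p L v := by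
      rw [st_smul, st_ev, hvP g hg]
      congr 1
      rw [map_mul, tX]
      congr 1
      · rw [IsScalarTower.algebraMap_apply k (RatFunc k) L]
        exact (act g).commutes _
      · exact (act g).commutes _
    simp only [y, st_sub, st_add, h4]
    rw [jj_wp] at h2
    have e1 : st p g (act g : L →+* L) (jj p V P a') = (wp p L).comp (jj p V P (β' ⟨g, hg⟩))
        + jj p V P a' := by rw [h2]; abel
    have e2 : st p g (act g : L →+* L) ((wp p L).comp e) =
        (wp p L).comp (β g) - (wp p L).comp (jj p V P (β' ⟨g, hg⟩)) + (wp p L).comp e := by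
      have h3' : (wp p L).comp (β g) - (wp p L).comp (jj p V P (β' ⟨g, hg⟩)) =
        st p g (act g : L →+* L) ((wp p L).comp e) - (wp p L).comp e := h3
      rw [h3']; abel
    have e3 : st p g (act g : L →+* L) a = (wp p L).comp (β g) + a := by rw [h1]; abel
    rw [e1, e2, e3]; abel
  have hyst : ∀ g, act g • A = A → st p g (act g : L →+* L) y = y := by
    intro g hg
    obtain ⟨q, hq, hqg⟩ := (hst _).1 hg
    have hm : q⁻¹ * g ∈ V := by
      rw [← hker, map_mul, map_inv, hqg]; group
    have hgq : g = q * (q⁻¹ * g) := by group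
    have h1 : st p g (act g : L →+* L) y = st p q (act q : L →+* L) y := by
      refine AddMonoidHom.ext fun χ => ?_
      rw [st_apply, st_apply, hqg]
      congr 2
      conv_lhs => rw [hgq]
      rw [cj_mul]
      exact cj_mem hVc ⟨q⁻¹ * g, hm⟩ _
    rw [h1, hyP q hq]
  obtain ⟨y₀, hy₀, hyy₀⟩ := density_T act hact A hA y hyst
  obtain ⟨m, n, δ', hm, hmint, hn, hδ', hy₀'⟩ := global_T (p := p) act hact A hA hX y₀ hy₀
  refine ⟨β, a + m, β', a', α, v, e, n, δ' + (y - y₀), hβ, hβV, ?_, ?_, hα, ?_, hv1, hvP, he', ?_,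
    ?_, ?_, ?_⟩
  · intro g
    rw [ha g, st_add, hm g]; abel
  · intro χ
    exact (intSub k L).add_mem (haint χ) (hmint χ)
  · exact @hloc
  · intro g _; exact hn g
  · intro g hg
    have h5 : δ' + (y - y₀) = y - m - (wp p L).comp n := by rw [hy₀']; abel
    rw [h5, st_sub, st_sub, hyP g hg, hm g, ← wp_st, hn g]
  · intro χ
    exact add_mem (hδ' χ) (hyy₀ χ)
  · rw [hy₀']; simp only [y]; abel

end levelL

end Pool.Agent.Helper54.PW
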